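import Pool.Agent.Lib.MP_e1010f_an.Perturb

set_option autoImplicit false

open Filter Topology Set MeasureTheory

namespace Pool.Agent.Lib.MP_e1010f_an

variable {E : Type} [NormedAddCommGroup E] [NormedSpace ℝ E]

theorem Sol.invariant [FiniteDimensional ℝ E] {g : E → E} (hg : ContDiff ℝ 1 g) {W : ℝ → E}
    {T : ℝ} (hW : Sol g W T) (D : Submodule ℝ E) (hD : ∀ y ∈ D, g y ∈ D) {s₁ : ℝ}
    (h₁ : W s₁ ∈ D) (s : ℝ) : W s ∈ D := by
  obtain ⟨π, hπ⟩ := Submodule.ClosedComplemented.of_finiteDimensional D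
  let Q : E →L[ℝ] E := ContinuousLinearMap.id ℝ E - D.subtypeL.comp π
  have hQ : ∀ y, Q y = y - π y := fun y => rfl
  have hQ0 : ∀ y ∈ D, Q y = 0 := fun y hy => by
    rw [hQ, show π y = ⟨y, hy⟩ from hπ ⟨y, hy⟩, sub_self]
  have key : ∀ t, s₁ ≤ t → W t ∈ D := by
    intro t ht
    have hc1 := hW.continuous
    have hc2 : Continuous fun r => (π (W r) : E) := continuous_subtype_val.comp
      (π.continuous.comp hc1)
    obtain ⟨R, hR⟩ := (((isCompact_Icc (a := s₁) (b := t)).image hc1).union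
      (isCompact_Icc.image hc2)).isBounded.subset_closedBall 0
    obtain ⟨K, hK⟩ := (hg.contDiffOn (s := Metric.closedBall 0 R)).exists_lipschitzOnWith
      one_ne_zero (convex_closedBall 0 R) (isCompact_closedBall 0 R)
    have := eq_zero_of_abs_deriv_le_mul_abs_self_of_eq_zero_right (f := fun r => Q (W r))
      (f' := fun r => Q (T • g (W r))) (K := |T| * (‖Q‖ * K)) (a := s₁) (b := t)
      (Q.continuous.comp hc1).continuousOn
      (fun r _ => (Q.hasFDerivAt.comp_hasDerivAt r (hW.1 r)).hasDerivWithinAt) (hQ0 _ h₁)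
      (fun r hr => by
        have hr' : r ∈ Icc s₁ t := ⟨hr.1, hr.2.le⟩
        have h1 : Q (g (W r)) = Q (g (W r) - g (π (W r))) := by
          rw [map_sub, hQ0 _ (hD _ (π (W r)).2), sub_zero]
        have h2 := hK.norm_sub_le (hR (Or.inl (mem_image_of_mem _ hr')))
          (hR (Or.inr (mem_image_of_mem _ hr')))
        rw [map_smul, norm_smul, h1, Real.norm_eq_abs, mul_assoc, mul_assoc]
        exact mul_le_mul_of_nonneg_left ((Q.le_opNorm _).trans
          (mul_le_mul_of_nonneg_left h2 (norm_nonneg _))) (abs_nonneg T)) t ⟨ht, le_rfl⟩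
    rw [hQ, sub_eq_zero] at this
    rw [this]
    exact (π (W t)).2
  obtain ⟨n, hn⟩ := exists_nat_ge (s₁ - s)
  have := key (s + n * 1) (by linarith)
  rwa [hW.2.nat_mul n s] at this

theorem exists_generic {C V : Type} [Finite C] [NormedAddCommGroup V] [NormedSpace ℝ V]
    (w : C → ℝ → V) (hw : ∀ e, Continuous (w e)) {s₀ : ℝ} {N : Set ℝ} (hN : N ∈ 𝓝 s₀)
    (O : Set C) (hO : ∀ b ∈ O, ∀ s ∈ N, ∃ d, d ≠ 0 ∧ HasDerivAt (w b) d s) :
    ∃ s ∈ N, ∀ b ∈ O, ∀ e, volume {t | w e t = w b s} = 0 := by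
  borelize V
  have hK : (⋃ e, {ξ : V | 0 < volume {t | w e t = ξ}}).Countable :=
    countable_iUnion fun e => Measure.countable_meas_level_set_pos (hw e).measurable
  have hZ : ∀ b ∈ O, ∀ ξ : V, {s ∈ N | w b s = ξ}.Countable := by
    intro b hb ξ
    refine (countable_setOfPred_isolated_right_within (s := {s ∈ N | w b s = ξ})).mono ?_
    intro s hs
    refine ⟨hs, ?_⟩
    obtain ⟨d, hd, hder⟩ := hO b hb s hs.1
    have h1 := hder.eventually_ne (c := ξ) hd
    rw [← empty_mem_iff_bot]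
    have h2 : 𝓝[{s ∈ N | w b s = ξ} ∩ Ioi s] s ≤ 𝓝[≠] s :=
      nhdsWithin_mono _ fun t ht => ne_of_gt ht.2
    filter_upwards [h2 h1, self_mem_nhdsWithin] with t ht ht'
    exact ht ht'.1.2
  have hB : (⋃ b ∈ O, ⋃ ξ ∈ (⋃ e, {ξ : V | 0 < volume {t | w e t = ξ}}),
      {s ∈ N | w b s = ξ}).Countable :=
    (O.to_countable).biUnion fun b hb => hK.biUnion fun ξ _ => hZ b hb ξ
  obtain ⟨s, hs1, hs2⟩ := (hB.dense_compl ℝ).inter_nhds_nonempty hN
  refine ⟨s, hs2, fun b hb e => ?_⟩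
  by_contra h
  apply hs1
  simp only [mem_iUnion]
  exact ⟨b, hb, w b s, ⟨e, pos_iff_ne_zero.mpr h⟩, hs2, rfl⟩

omit [NormedSpace ℝ E] in
theorem small_integral {p : ℕ → E → E} (hp : ∀ n, Continuous (p n)) {N : ℝ}
    (hN : ∀ n x, ‖p n x‖ ≤ N) {W : ℝ → E} (hW : Continuous W)
    (h : ∀ᵐ r, ∀ᶠ n in atTop, p n (W r) = 0) :
    Tendsto (fun n => ∫ r in (0 : ℝ)..1, ‖p n (W r)‖) atTop (𝓝 0) := by
  have := intervalIntegral.tendsto_integral_filter_of_dominated_convergence (μ := volume)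
    (a := 0) (b := 1) (l := atTop) (F := fun n r => ‖p n (W r)‖) (f := fun _ => (0 : ℝ))
    (fun _ => N) (Eventually.of_forall fun n => ((hp n).comp hW).norm.aestronglyMeasurable)
    (Eventually.of_forall fun n => Eventually.of_forall fun r _ => by simpa using hN n _)
    (continuous_const.intervalIntegrable _ _) (by
      filter_upwards [h] with r hr _
      refine tendsto_const_nhds.congr' ?_
      filter_upwards [hr] with n hn
      simp [hn])
  simpa using this

end Pool.Agent.Lib.MP_e1010f_an
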