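import Mathlib

set_option autoImplicit false

open scoped ContDiff

namespace Pool.Agent.Lib.MP_e1010f_an

/-- A network with nodes `C` and arrows `A`, with node types and arrow types. -/
structure Network (C A : Type) where
  head : A → C
  tail : A → C
  nodeType : Setoid C
  arrowType : Setoid A
  head_type : ∀ a b, arrowType a b → nodeType (head a) (head b)
  tail_type : ∀ a b, arrowType a b → nodeType (tail a) (tail b)

section network

variable {C A : Type} (G : Network C A)

/-- The input set `I(c)`: arrows with head `c`. -/
abbrev Network.In (c : C) : Type := {e : A // G.head e = c}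

/-- `β : I(c) ≃ I(d)` is an input isomorphism: `c`, `d` have equal type and `β` preserves
arrow types. -/
def Network.IsInputIso (c d : C) (β : G.In c ≃ G.In d) : Prop :=
  G.nodeType c d ∧ ∀ e : G.In c, G.arrowType e.1 (β e).1

/-- The relation `r` on nodes is balanced. -/
def Network.Balanced (r : C → C → Prop) : Prop :=
  ∀ c d, r c d → ∃ β : G.In c ≃ G.In d,
    G.IsInputIso c d β ∧ ∀ e : G.In c, r (G.tail e.1) (G.tail (β e).1)

variable {V : Type} [NormedAddCommGroup V] [NormedSpace ℝ V] (P : C → Submodule ℝ V)

/-- The total state space `∏ c, P c`; the node spaces `P c` are subspaces of one space `V`. -/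
abbrev State : Type := (c : C) → P c

/-- `f c` is the function `F c` of the state of `c` and of the states at the tails of the input
arrows of `c`, and `F d` is `F c` relabelled by any input isomorphism `β : I(c) ≃ I(d)`. -/
def Network.Represents (F : (c : C) → V × (G.In c → V) → V) (f : State P → State P) : Prop :=
  (∀ (x : State P) (c : C), (f x c : V) = F c ((x c : V), fun e => (x (G.tail e.1) : V))) ∧
  ∀ (c d : C) (β : G.In c ≃ G.In d), G.IsInputIso c d β →
    ∀ (v : V) (z : G.In d → V), F d (v, z) = F c (v, fun e => z (β e))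

/-- Admissible vector fields (regularity is stated separately). -/
def Network.Admissible (f : State P → State P) : Prop := ∃ F, G.Represents P F f

/-- Admissible vector fields whose component functions `F c` are smooth. -/
def Network.SmoothAdmissible [Fintype A] [DecidableEq C] (p : State P → State P) : Prop :=
  ∃ F, (∀ c, ContDiff ℝ ∞ (F c)) ∧ G.Represents P F p

/-- The synchrony pattern of a curve `x`: same node space and `x_c(t) = x_d(t)` for all `t`. -/
def Sync (x : ℝ → State P) (c d : C) : Prop := P c = P d ∧ ∀ t, (x t c : V) = (x t d : V)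

end network

section ode

variable {E : Type} [NormedAddCommGroup E] [NormedSpace ℝ E]

/-- `x` is a non-constant solution of `x' = f x` with period `T > 0`. -/
def IsPeriodicOrbit (f : E → E) (x : ℝ → E) (T : ℝ) : Prop :=
  0 < T ∧ (∀ t, HasDerivAt x (f (x t)) t) ∧ (∀ t, x (t + T) = x t) ∧ ∃ s t, x s ≠ x t

/-- Hyperbolicity: with `Φ` the fundamental solution of the variational equation along `x`, the
number `1` is a simple root of the characteristic polynomial of the monodromy operator `Φ T`, and
it is its only complex root on the unit circle. -/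
def IsHyperbolic [FiniteDimensional ℝ E] (f : E → E) (x : ℝ → E) (T : ℝ) : Prop :=
  ∃ Φ : ℝ → E →L[ℝ] E, Φ 0 = ContinuousLinearMap.id ℝ E ∧
    (∀ t, HasDerivAt Φ ((fderiv ℝ f (x t)).comp (Φ t)) t) ∧
    (LinearMap.charpoly (Φ T).toLinearMap).rootMultiplicity 1 = 1 ∧
    ∀ μ : ℂ, ‖μ‖ = 1 → Polynomial.aeval μ (LinearMap.charpoly (Φ T).toLinearMap) = 0 → μ = 1

end ode

/-- Rigidity of the synchrony pattern of the `T`-periodic orbit `x` of `f`: for some `η > 0`, for
every smooth admissible `p` of `C¹` size at most `η`, every periodic orbit `y` of `f + p` that is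
`η`-close to `x` (with period `η`-close to `T`) keeps all synchronies of `x`. -/
def Network.Rigid {C A : Type} (G : Network C A) [Fintype C] [Fintype A] [DecidableEq C]
    {V : Type} [NormedAddCommGroup V] [NormedSpace ℝ V] (P : C → Submodule ℝ V)
    (f : State P → State P) (x : ℝ → State P) (T : ℝ) : Prop :=
  ∃ η : ℝ, 0 < η ∧ ∀ p : State P → State P, G.SmoothAdmissible P p →
    (∀ z, ‖p z‖ ≤ η ∧ ‖fderiv ℝ p z‖ ≤ η) →
    ∀ (y : ℝ → State P) (T' : ℝ), IsPeriodicOrbit (fun z => f z + p z) y T' → |T' - T| ≤ η →
      (∀ s, ‖y (T' * s) - x (T * s)‖ ≤ η) → ∀ c d, Sync P x c d → Sync P y c d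

end Pool.Agent.Lib.MP_e1010f_an
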