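import Pool.Agent.Lib.MP_e1010f_an.Perturb
import Pool.Agent.Lib.MP_e1010f_an.Defs

set_option autoImplicit false

open Filter Topology Set

namespace Pool.Agent.Lib.MP_e1010f_an

variable {E : Type} [NormedAddCommGroup E] [NormedSpace ℝ E]

/-- The Volterra operator. -/
noncomputable def vol (B : C(unitInterval, E →L[ℝ] E)) (T : ℝ) :
    C(unitInterval, E) →L[ℝ] C(unitInterval, E) := T • (int (E := E)).comp (mul B)

theorem vol_apply (B : C(unitInterval, E →L[ℝ] E)) (T : ℝ) (y : C(unitInterval, E)) :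
    vol B T y = T • int (mul B y) := rfl

theorem vol_pow_bound (B : C(unitInterval, E →L[ℝ] E)) (T : ℝ) (y : C(unitInterval, E)) (n : ℕ) :
    ∀ s : unitInterval, ‖((vol B T) ^ n) y s‖ ≤ (|T| * ‖B‖ * s) ^ n / n.factorial * ‖y‖ := by
  induction n with
  | zero => intro s; simpa using y.norm_coe_le_norm s
  | succ n ih =>
    intro s
    have hB : 0 ≤ ‖B‖ := norm_nonneg B
    rw [pow_succ', mul_apply_eq_comp, vol_apply, ContinuousMap.smul_apply, norm_smul,
      int_apply, Real.norm_eq_abs]
    have h1 : ‖∫ r in (0 : ℝ)..s, ext (mul B (((vol B T) ^ n) y)) r‖ ≤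
        ∫ r in (0 : ℝ)..s, (‖B‖ * ((|T| * ‖B‖) ^ n / n.factorial * ‖y‖)) * r ^ n := by
      refine intervalIntegral.norm_integral_le_of_norm_le s.2.1 (Eventually.of_forall fun r hr => ?_)
        ((by fun_prop : Continuous fun r : ℝ =>
          (‖B‖ * ((|T| * ‖B‖) ^ n / n.factorial * ‖y‖)) * r ^ n).intervalIntegrable _ _)
      have hr' : r ∈ Icc (0 : ℝ) 1 := ⟨hr.1.le, hr.2.trans s.2.2⟩
      rw [ext_of_mem _ hr', mul_apply]
      refine ((B _).le_opNorm _).trans ?_
      refine (mul_le_mul (B.norm_coe_le_norm _) (ih _) (norm_nonneg _) hB).trans (le_of_eq ?_)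
      simp only [mul_pow]
      ring
    rw [intervalIntegral.integral_const_mul, integral_pow] at h1
    refine (mul_le_mul_of_nonneg_left h1 (abs_nonneg T)).trans (le_of_eq ?_)
    rw [Nat.factorial_succ]
    push_cast
    simp only [mul_pow]
    field_simp
    ring

variable [CompleteSpace E]

theorem vol_unit (B : C(unitInterval, E →L[ℝ] E)) (T : ℝ) : IsUnit (1 - vol B T) := by
  have hB : 0 ≤ ‖B‖ := norm_nonneg B
  have hK : 0 ≤ |T| * ‖B‖ := mul_nonneg (abs_nonneg T) hB
  obtain ⟨n, hn⟩ := ((FloorSemiring.tendsto_pow_div_factorial_atTop (|T| * ‖B‖)).eventually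
    (gt_mem_nhds zero_lt_one)).exists
  have h1 : ‖(vol B T) ^ n‖ ≤ (|T| * ‖B‖) ^ n / n.factorial := by
    refine ContinuousLinearMap.opNorm_le_bound _ (by positivity) fun y => ?_
    rw [ContinuousMap.norm_le _ (by positivity)]
    intro s
    refine (vol_pow_bound B T y n s).trans ?_
    have h0 := s.2.1
    have h1 : |T| * ‖B‖ * s ≤ |T| * ‖B‖ := mul_le_of_le_one_right hK s.2.2
    exact mul_le_mul_of_nonneg_right (div_le_div_of_nonneg_right
      (pow_le_pow_left₀ (mul_nonneg hK h0) h1 n) (by positivity)) (norm_nonneg _)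
  have h2 := isUnit_one_sub_of_norm_lt_one (x := (vol B T) ^ n) (lt_of_le_of_lt h1 hn)
  rw [← mul_neg_geom_sum] at h2
  refine ((Commute.isUnit_mul_iff ?_).mp h2).1
  rw [Commute, SemiconjBy, mul_neg_geom_sum, geom_sum_mul_neg]

theorem one_sub_vol_res {B : C(unitInterval, E →L[ℝ] E)} {A : ℝ → E →L[ℝ] E} (hA : Continuous A)
    (hB : ∀ s : unitInterval, B s = A s) {T : ℝ} {w k : ℝ → E} (hw : Continuous w)
    (hk : Continuous k) (hd : ∀ s, HasDerivAt w (k s + T • A s (w s)) s) :
    (1 - vol B T) (res w hw) = ContinuousMap.const _ (w 0) + int (res k hk) := by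
  have hc : Continuous fun s => k s + T • A s (w s) := hk.add ((hA.clm_apply hw).const_smul T)
  have h2 : res (fun s => k s + T • A s (w s)) hc = res k hk + T • mul B (res w hw) := by
    ext s; simp [hB]
  ext s
  have h1 := int_res hd hc s
  rw [h2, map_add, map_smul] at h1
  simp only [ContinuousMap.add_apply, ContinuousMap.smul_apply] at h1
  change w s - T • int (mul B (res w hw)) s = w 0 + int (res k hk) s
  rw [← sub_eq_iff_eq_add', sub_right_comm, ← h1, add_sub_cancel_right]

omit [CompleteSpace E] in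
theorem bord_surj [FiniteDimensional ℝ E] (M : E →L[ℝ] E) (v : E) (hv : M v = v) (ℓ : E →L[ℝ] ℝ)
    (hℓ : ℓ v = 1) (hM : (LinearMap.charpoly M.toLinearMap).rootMultiplicity 1 = 1) :
    (∀ (m : E) (τ : ℝ), m - M m - τ • v = 0 → ℓ m = 0 → m = 0 ∧ τ = 0) ∧
    ∀ (z : E) (a : ℝ), ∃ (m : E) (τ : ℝ), m - M m - τ • v = z ∧ ℓ m = a := by
  have hv0 : v ≠ 0 := by rintro rfl; simp at hℓ
  have hinj : ∀ (m : E) (τ : ℝ), m - M m - τ • v = 0 → ℓ m = 0 → m = 0 ∧ τ = 0 := by
    intro m τ h1 h2
    have hrank := LinearMap.finrank_maxGenEigenspace_eq (φ := M.toLinearMap) 1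
    rw [hM] at hrank
    have hvm : v ∈ Module.End.maxGenEigenspace M.toLinearMap 1 :=
      (Module.End.mem_maxGenEigenspace _ _ _).mpr ⟨1, by simp [hv]⟩
    have hMm : M m = m - τ • v := by
      rw [sub_right_comm, sub_eq_zero] at h1; exact h1.symm
    have hmm : m ∈ Module.End.maxGenEigenspace M.toLinearMap 1 :=
      (Module.End.mem_maxGenEigenspace _ _ _).mpr ⟨2, by simp [pow_two, hMm, hv]⟩
    obtain ⟨c, hc⟩ := (finrank_eq_one_iff_of_nonzero' (⟨v, hvm⟩ : Module.End.maxGenEigenspace
      M.toLinearMap 1) (by simpa using hv0)).mp hrank ⟨m, hmm⟩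
    have hc' : c • v = m := congrArg Subtype.val hc
    have hc0 : c = 0 := by simpa [← hc', hℓ] using h2
    have hm0 : m = 0 := by rw [← hc', hc0, zero_smul]
    refine ⟨hm0, ?_⟩
    simpa [hm0, hv0] using h1
  refine ⟨hinj, fun z a => ?_⟩
  let Bd : (E × ℝ) →ₗ[ℝ] (E × ℝ) :=
    { toFun := fun q => (q.1 - M q.1 - q.2 • v, ℓ q.1)
      map_add' := fun p q => by
        ext
        · simp [add_smul]; abel
        · simp
      map_smul' := fun c p => by
        ext
        · simp [smul_sub, mul_smul]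
        · simp }
  have hi : Function.Injective Bd := by
    rw [injective_iff_map_eq_zero]
    rintro ⟨m, τ⟩ h
    obtain ⟨h1, h2⟩ := hinj m τ (congrArg Prod.fst h) (congrArg Prod.snd h)
    exact Prod.ext h1 h2
  obtain ⟨⟨m, τ⟩, h⟩ := LinearMap.injective_iff_surjective.mp hi (z, a)
  exact ⟨m, τ, congrArg Prod.fst h, congrArg Prod.snd h⟩

omit [CompleteSpace E] in
theorem sol_of_orbit {f : E → E} {x : ℝ → E} {T : ℝ} (hx : IsPeriodicOrbit f x T) :
    Sol f (fun s => x (T * s)) T := by
  refine ⟨fun s => ?_, fun s => ?_⟩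
  · have := (hx.2.1 (T * s)).scomp s ((hasDerivAt_id s).const_mul T)
    rw [mul_one] at this
    exact this
  · simp only [mul_add, mul_one, hx.2.2.1]

theorem base_nondeg [FiniteDimensional ℝ E] {f : E → E} (hf : ContDiff ℝ 1 f) {x : ℝ → E} {T : ℝ}
    (hx : IsPeriodicOrbit f x T) (hyp : IsHyperbolic f x T) :
    ∃ ℓ : E →L[ℝ] ℝ, Nondeg ℓ f (fun s => x (T * s)) T := by
  obtain ⟨Φ, hΦ0, hΦ, hM, -⟩ := hyp
  have hW := sol_of_orbit hx
  set W : ℝ → E := fun s => x (T * s) with hWdef
  have hWc := hW.continuous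
  let A : ℝ → E →L[ℝ] E := fun s => fderiv ℝ f (W s)
  have hA : Continuous A := (hf.continuous_fderiv one_ne_zero).comp hWc
  let B : C(unitInterval, E →L[ℝ] E) := ⟨fun s => A s, hA.comp continuous_subtype_val⟩
  have hB : ∀ s : unitInterval, B s = A s := fun s => rfl
  have hvc : Continuous fun s => f (W s) := hf.continuous.comp hWc
  have hΦc : Continuous Φ := continuous_iff_continuousAt.mpr fun t => (hΦ t).continuousAt
  have hψc : ∀ m : E, Continuous fun s => Φ (T * s) m := fun m =>
    (hΦc.comp (continuous_const.mul continuous_id)).clm_apply continuous_const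
  have hint0 : int (res (fun _ => (0 : E)) continuous_const) = 0 := map_zero _
  have hψ : ∀ m : E, (1 - vol B T) (res _ (hψc m)) = ContinuousMap.const _ m := by
    intro m
    rw [one_sub_vol_res hA hB (hψc m) (k := fun _ => 0) continuous_const, hint0]
    · simp [hΦ0]
    · intro s
      have h1 := (hΦ (T * s)).scomp s ((hasDerivAt_id s).const_mul T)
      have h2 := h1.clm_apply (hasDerivAt_const s m)
      simpa using h2
  have hvd : ∀ s, HasDerivAt (fun s => f (W s)) (T • A s (f (W s))) s := by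
    intro s
    have := (hf.differentiable one_ne_zero (W s)).hasFDerivAt.comp_hasDerivAt s (hW.1 s)
    rwa [map_smul] at this
  have hv : (1 - vol B T) (res _ hvc) = ContinuousMap.const _ (f (W 0)) := by
    rw [one_sub_vol_res hA hB hvc (k := fun _ => 0) continuous_const (by simpa using hvd), hint0,
      add_zero]
  have hwc : Continuous fun s : ℝ => s • f (W s) := continuous_id.smul hvc
  have hw : (1 - vol B T) (res _ hwc) = int (res _ hvc) := by
    rw [one_sub_vol_res hA hB hwc hvc]
    · ext s; simp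
    · intro s
      have := (hasDerivAt_id s).smul (hvd s)
      simp only [id, one_smul] at this
      rw [map_smul, smul_comm T s, add_comm]
      exact this
  obtain ⟨U, hU⟩ := vol_unit B T
  have hUinj : Function.Injective (1 - vol B T : C(unitInterval, E) →L[ℝ] C(unitInterval, E)) := by
    rw [← hU]; exact (ContinuousLinearEquiv.ofUnit U).injective
  have hUsurj : Function.Surjective
      (1 - vol B T : C(unitInterval, E) →L[ℝ] C(unitInterval, E)) := by
    rw [← hU]; exact (ContinuousLinearEquiv.ofUnit U).surjective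
  have hW10 : W 1 = W 0 := by simpa using hW.2 0
  have hvψ : res _ hvc = res _ (hψc (f (W 0))) := hUinj (hv.trans (hψ _).symm)
  have hMv : Φ T (f (W 0)) = f (W 0) := by
    have := DFunLike.congr_fun hvψ 1
    simpa [hW10] using this.symm
  have hv0 : f (W 0) ≠ 0 := by
    intro h0
    have h1 : ∀ s, f (W s) = 0 := by
      intro s
      have := DFunLike.congr_fun hvψ ⟨Int.fract s, Int.fract_nonneg s, (Int.fract_lt_one s).le⟩
      simpa [h0, periodic_fract hW.2] using this
    obtain ⟨s, t, hst⟩ := hx.2.2.2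
    have h2 : ∀ a b, W a = W b := is_const_of_deriv_eq_zero
      (fun a => (hW.1 a).differentiableAt) (fun a => by rw [(hW.1 a).deriv, h1, smul_zero])
    apply hst
    have := h2 (s / T) (t / T)
    simpa [hWdef, mul_div_cancel₀ _ hx.1.ne'] using this
  obtain ⟨ℓ, hℓ⟩ := SeparatingDual.exists_eq_one (R := ℝ) hv0
  obtain ⟨hinj, hsurj⟩ := bord_surj (Φ T) _ hMv ℓ hℓ hM
  refine ⟨ℓ, B, res _ hvc, hB, fun s => rfl, ?_⟩
  have hop : ∀ (y : C(unitInterval, E)) (τ : ℝ), linOp ℓ B (res _ hvc) T (y, τ) =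
      ((1 - vol B T) y - ContinuousMap.const _ (y 1) - τ • int (res _ hvc), ℓ (y 0)) := by
    intro y τ
    rw [linOp_apply, sub_right_comm y]
    rfl
  refine ⟨ContinuousLinearEquiv.ofBijective (linOp ℓ B (res _ hvc) T) ?_ ?_, rfl⟩
  · rw [LinearMap.ker_eq_bot']
    rintro ⟨y, τ⟩ h
    have h' : linOp ℓ B (res _ hvc) T (y, τ) = 0 := h
    rw [hop] at h'
    have h1 : y = res _ (hψc (y 1)) + τ • res _ hwc := by
      apply hUinj
      rw [map_add, map_smul, hψ, hw]
      have := congrArg Prod.fst h'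
      simp only [Prod.fst_zero] at this
      rw [sub_sub, sub_eq_zero] at this
      exact this
    have h2 := DFunLike.congr_fun h1 1
    have h3 := DFunLike.congr_fun h1 0
    simp only [ContinuousMap.add_apply, ContinuousMap.smul_apply, res_apply, Icc.coe_one, mul_one,
      one_smul, hW10, Icc.coe_zero, mul_zero, zero_smul, smul_zero, add_zero, hΦ0,
      ContinuousLinearMap.id_apply] at h2 h3
    have h4 : ℓ (y 0) = 0 := congrArg Prod.snd h'
    obtain ⟨h5, h6⟩ := hinj (y 1) τ (by rw [sub_sub, sub_eq_zero]; exact h2) (h3 ▸ h4)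
    refine Prod.ext ?_ h6
    rw [h1, h5, h6]
    ext s
    simp
  · rw [LinearMap.range_eq_top]
    rintro ⟨h, a⟩
    obtain ⟨z, hz⟩ := hUsurj h
    obtain ⟨m, τ, h1, h2⟩ := hsurj (z 1) (a - ℓ (z 0))
    refine ⟨(z + res _ (hψc m) + τ • res _ hwc, τ), ?_⟩
    change linOp ℓ B (res _ hvc) T _ = _
    have h3 : (z + res _ (hψc m) + τ • res _ hwc : C(unitInterval, E)) 1 = m := by
      simp only [ContinuousMap.add_apply, ContinuousMap.smul_apply, res_apply, Icc.coe_one, mul_one,
        one_smul, hW10, ← h1]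
      abel
    have h4 : (z + res _ (hψc m) + τ • res _ hwc : C(unitInterval, E)) 0 = z 0 + m := by
      simp [hΦ0]
    rw [hop, h3, h4, map_add, map_add, map_smul, hz, hψ, hw, map_add, h2]
    congr 1
    · abel
    · ring

end Pool.Agent.Lib.MP_e1010f_an
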