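import Pool.Agent.Lib.MP_e1010f_an.Maxi
import Pool.Agent.Lib.MP_e1010f_an.Base

set_option autoImplicit false

open Filter Topology Set MeasureTheory

namespace Pool.Agent.Lib.MP_e1010f_an

variable {C A : Type} {V : Type} [NormedAddCommGroup V] [NormedSpace ℝ V] {P : C → Submodule ℝ V}
  [Fintype C] [Fintype A] [DecidableEq C] [FiniteDimensional ℝ V]
  {G : Network C A} {f : State P → State P} {W₀ : ℝ → State P} {T η : ℝ}
  {ℓ : State P →L[ℝ] ℝ} {q : State P → State P} {W : ℝ → State P} {T' s : ℝ}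

omit [Fintype C] [FiniteDimensional ℝ V] in
theorem vanish {c e : C} {x z : State P} (h : ∀ β : G.In c ≃ G.In e, G.IsInputIso c e β →
    inp (Equiv.refl (G.In c)) z ≠ inp β x) :
    ∀ᶠ n : ℕ in atTop, ∀ β : G.In c ≃ G.In e, G.IsInputIso c e β →
      1 / ((n : ℝ) + 1) ≤ dist (inp β x) (inp (Equiv.refl (G.In c)) z) := by
  refine eventually_all.mpr fun β => ?_
  by_cases hβ : G.IsInputIso c e β
  · filter_upwards [tendsto_one_div_add_atTop_nhds_zero_nat.eventually
      (ge_mem_nhds (dist_pos.mpr (h β hβ).symm))] with n hn _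
    exact hn
  · exact Eventually.of_forall fun n h' => absurd h' hβ

/-- A sequence of bump perturbations and the corresponding linearised responses. -/
theorem Maxi.bumps (hP : ∀ c d, G.nodeType c d → P c = P d) (hf : ContDiff ℝ 1 f) (hη : η ≤ T)
    (h : Maxi G f W₀ T η ℓ q W T' s) (c : C) (v : V) (hv : v ∈ P c) :
    ∃ (p : ℕ → State P → State P) (y : ℕ → State P),
      (∀ n, G.Admissible P (p n)) ∧ (∀ n, ∃ k : ℝ, 1 ≤ k ∧ (p n (W s) c : V) = k • v) ∧
      (∀ e, ¬ Match G (W s) c e → ∀ᶠ n in atTop, (p n (W s) e : V) = 0) ∧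
      (∀ n a b, (W s a : V) = W s b → (y n a : V) = y n b) ∧
      (∀ n a b, (W s a : V) = W s b →
        (fderiv ℝ (fun z => f z + q z) (W s) (y n) a : V) + p n (W s) a =
        (fderiv ℝ (fun z => f z + q z) (W s) (y n) b : V) + p n (W s) b) ∧
      (∀ n a, ((f (W s) + q (W s)) a : V) = 0 →
        (fderiv ℝ (fun z => f z + q z) (W s) (y n) a : V) + p n (W s) a = 0) ∧
      ((∀ᵐ r, ∀ e (β : G.In c ≃ G.In e), inp (Equiv.refl (G.In c)) (W s) ≠ inp β (W r)) →
        Tendsto y atTop (𝓝 0)) := by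
  obtain ⟨K, hK⟩ := h.lin hf hη
  obtain ⟨N, hN⟩ := exists_bump hP c (W s) v hv
  choose p h1 h2 h3 h4 h5 using fun n : ℕ => hN (1 / ((n : ℝ) + 1)) (by positivity)
  choose y g1 g2 g3 g4 using fun n => hK (p n) (h1 n) (h2 n)
  refine ⟨p, y, fun n => (h1 n).admissible, h4, fun e he => ?_, g2, g3, g4, fun hae => ?_⟩
  · filter_upwards [vanish (x := W s) (z := W s) fun β hβ hh => he ⟨β, hβ, hh⟩] with n hn
    exact h5 n _ _ hn
  · have hs := small_integral (fun n => (h1 n).contDiff.continuous) h3 h.1.sol.continuous (by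
      filter_upwards [hae] with r hr
      filter_upwards [eventually_all.mpr fun e => vanish (G := G) (c := c) (e := e) (x := W r)
        (z := W s) fun β _ => hr e β] with n hn
      funext e
      exact Subtype.ext (h5 n _ e (hn e)))
    have := hs.const_mul K
    rw [mul_zero] at this
    exact squeeze_zero_norm g1 this

omit [FiniteDimensional ℝ V] [Fintype A] [DecidableEq C] [Fintype C] in
theorem not_small {B : State P →L[ℝ] State P} {y : ℕ → State P} (hy : Tendsto y atTop (𝓝 0))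
    {v : V} (hv : v ≠ 0) {L : State P →L[ℝ] V}
    (h : ∀ᶠ n in atTop, ∃ k : ℝ, 1 ≤ k ∧ L (B (y n)) = k • v) : False := by
  have h1 : Tendsto (fun n => ‖L (B (y n))‖) atTop (𝓝 0) := by
    have := ((L.continuous.comp B.continuous).norm.tendsto 0).comp hy
    simp only [Function.comp_apply, map_zero, norm_zero] at this
    exact this
  obtain ⟨n, ⟨k, hk, h2⟩, h3⟩ := (h.and (h1.eventually (gt_mem_nhds (norm_pos_iff.mpr hv)))).exists
  rw [h2, norm_smul, Real.norm_of_nonneg (by linarith)] at h3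
  nlinarith [norm_nonneg v]

theorem Maxi.upstream (hP : ∀ c d, G.nodeType c d → P c = P d) (hP0 : ∀ c, P c ≠ ⊥)
    (hf : ContDiff ℝ 1 f) (hη : η ≤ T) (h : Maxi G f W₀ T η ℓ q W T' s)
    (hgen : ∀ b, ((f (W s) + q (W s)) b : V) ≠ 0 → ∀ e, volume {t | (W t e : V) = W s b} = 0)
    {a : C} (ha : ((f (W s) + q (W s)) a : V) = 0) (e₀ : G.In a) :
    ((f (W s) + q (W s)) (G.tail e₀.1) : V) = 0 := by
  by_contra hb
  obtain ⟨v, hv, hv0⟩ := Submodule.exists_mem_ne_zero_of_ne_bot (hP0 a)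
  obtain ⟨p, y, -, h2, -, -, -, h6, h7⟩ := h.bumps hP hf hη a v hv
  have hy := h7 (by
    filter_upwards [ae_all_iff.mpr fun e => measure_eq_zero_iff_ae_notMem.mp (hgen _ hb e)]
      with r hr e β hh
    exact hr _ (congrFun (congrArg Prod.snd hh) e₀).symm)
  refine not_small (B := fderiv ℝ (fun z => f z + q z) (W s)) hy hv0 (L := -ev P a)
    (Eventually.of_forall fun n => ?_)
  obtain ⟨k, hk, hk'⟩ := h2 n
  refine ⟨k, hk, ?_⟩
  rw [← hk']
  exact neg_eq_of_add_eq_zero_right (h6 n a ha)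

theorem Maxi.moving (hP : ∀ c d, G.nodeType c d → P c = P d) (hP0 : ∀ c, P c ≠ ⊥)
    (hf : ContDiff ℝ 1 f) (hη : η ≤ T) (h : Maxi G f W₀ T η ℓ q W T' s)
    (hgen : ∀ b, ((f (W s) + q (W s)) b : V) ≠ 0 → ∀ e, volume {t | (W t e : V) = W s b} = 0)
    {c d : C} (hc : ((f (W s) + q (W s)) c : V) ≠ 0) (hcd : (W s c : V) = W s d) :
    Match G (W s) c d := by
  by_contra hm
  obtain ⟨v, hv, hv0⟩ := Submodule.exists_mem_ne_zero_of_ne_bot (hP0 c)
  obtain ⟨p, y, -, h2, h3, -, h5, -, h7⟩ := h.bumps hP hf hη c v hv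
  have hy := h7 (by
    filter_upwards [ae_all_iff.mpr fun e => measure_eq_zero_iff_ae_notMem.mp (hgen _ hc e)]
      with r hr e β hh
    exact hr _ (congrArg Prod.fst hh).symm)
  refine not_small (B := fderiv ℝ (fun z => f z + q z) (W s)) hy hv0 (L := ev P d - ev P c) ?_
  filter_upwards [h3 d hm] with n hn
  obtain ⟨k, hk, hk'⟩ := h2 n
  refine ⟨k, hk, ?_⟩
  have := h5 n c d hcd
  rw [hn, add_zero, hk'] at this
  change (fderiv ℝ (fun z => f z + q z) (W s) (y n) d : V)
    - (fderiv ℝ (fun z => f z + q z) (W s) (y n) c : V) = k • v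
  rw [← this, add_sub_cancel_left]

omit [Fintype A] [DecidableEq C] [FiniteDimensional ℝ V] in
theorem fderiv_local {g : State P → State P} (hg : ContDiff ℝ 1 g) (hga : G.Admissible P g)
    (z y : State P) {a : C} (h1 : (y a : V) = 0) (h2 : ∀ e : G.In a, (y (G.tail e.1) : V) = 0) :
    (fderiv ℝ g z y a : V) = 0 := by
  have d1 : HasDerivAt (fun t : ℝ => z + t • y) y 0 := by
    simpa using ((hasDerivAt_id (0 : ℝ)).smul_const y).const_add z
  have d2 : HasFDerivAt g (fderiv ℝ g z) (z + (0 : ℝ) • y) := by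
    rw [zero_smul, add_zero]
    exact (hg.differentiable one_ne_zero z).hasFDerivAt
  refine deriv_unique (ev_deriv (d2.comp_hasDerivAt 0 d1) a) (hasDerivAt_const 0 (g z a : V))
    (Eventually.of_forall fun t => ?_)
  refine hga.eq (Network.IsInputIso.refl G a) (Prod.ext ?_ (funext fun e => ?_))
  · simp [inp, h1]
  · simp [inp, h2]

theorem Maxi.steady (hP : ∀ c d, G.nodeType c d → P c = P d) (hP0 : ∀ c, P c ≠ ⊥)
    (hf : ContDiff ℝ 1 f) (hfa : G.Admissible P f) (hη : η ≤ T) (h : Maxi G f W₀ T η ℓ q W T' s)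
    (hup : ∀ a, ((f (W s) + q (W s)) a : V) = 0 → ∀ e₀ : G.In a,
      ((f (W s) + q (W s)) (G.tail e₀.1) : V) = 0)
    {c d : C} (hc : ((f (W s) + q (W s)) c : V) = 0) (hcd : (W s c : V) = W s d) :
    Match G (W s) c d := by
  classical
  set z := W s with hz
  set S : Set C := {a | ((f z + q z) a : V) = 0} with hS
  have hSs : ∀ a b, (z a : V) = z b → (a ∈ S ↔ b ∈ S) := fun a b hab => by
    have h1 : ((f z + q z) a : V) = (f z + q z) b := h.sync hf hη hab
    change ((f z + q z) a : V) = 0 ↔ ((f z + q z) b : V) = 0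
    rw [h1]
  set B := fderiv ℝ (fun z => f z + q z) z with hB
  have hg : ContDiff ℝ 1 fun z => f z + q z := hf.add h.1.sm.contDiff
  have hga := hfa.add h.1.sm.admissible
  let π : State P →ₗ[ℝ] State P :=
    { toFun := fun y a => if a ∈ S then y a else 0
      map_add' := fun x y => by funext a; by_cases ha : a ∈ S <;> simp [ha]
      map_smul' := fun t y => by funext a; by_cases ha : a ∈ S <;> simp [ha] }
  have hπ1 : ∀ y a, a ∈ S → π y a = y a := fun y a ha => if_pos ha
  have hπ0 : ∀ y a, a ∉ S → π y a = 0 := fun y a ha => if_neg ha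
  let D : Submodule ℝ (State P) :=
    { carrier := {y | (∀ a, a ∉ S → (y a : V) = 0) ∧ ∀ a b, (z a : V) = z b → (y a : V) = y b}
      add_mem' := fun {x y} hx hy => ⟨fun a ha => by simp [hx.1 a ha, hy.1 a ha],
        fun a b hab => by simp [hx.2 a b hab, hy.2 a b hab]⟩
      zero_mem' := ⟨fun a _ => rfl, fun a b _ => rfl⟩
      smul_mem' := fun t y hy => ⟨fun a ha => by simp [hy.1 a ha],
        fun a b hab => by simp [hy.2 a b hab]⟩ }
  let H : Submodule ℝ (State P) := D.map (π ∘ₗ B.toLinearMap)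
  have hcls : ∀ a ∈ S, ∀ v ∈ P a, ∃ w ∈ H, ∀ e, (w e : V) = if Match G z a e then v else 0 := by
    intro a ha v hv
    obtain ⟨p, y, h1, h2, h3, h4, -, h6, -⟩ := h.bumps hP hf hη a v hv
    have h3' : ∀ᶠ n in atTop, ∀ e, ¬ Match G z a e → (p n z e : V) = 0 := by
      refine eventually_all.mpr fun e => ?_
      by_cases he : Match G z a e
      · exact Eventually.of_forall fun n h' => absurd he h'
      · exact (h3 e he).mono fun n hn _ => hn
    obtain ⟨n, hn⟩ := h3'.exists
    obtain ⟨k, hk, hk'⟩ := h2 n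
    have hk0 : k ≠ 0 := by linarith
    have hmem : π (y n) ∈ D := by
      refine ⟨fun b hb => by rw [hπ0 _ _ hb]; rfl, fun b b' hb => ?_⟩
      by_cases hbS : b ∈ S
      · rw [hπ1 _ _ hbS, hπ1 _ _ ((hSs b b' hb).mp hbS)]
        exact h4 n b b' hb
      · rw [hπ0 _ _ hbS, hπ0 _ _ (mt (hSs b b' hb).mpr hbS)]
        rfl
    refine ⟨(-k⁻¹) • π (B (π (y n))), H.smul_mem _ ⟨_, hmem, rfl⟩, fun e => ?_⟩
    rw [Pi.smul_apply, Submodule.coe_smul]
    by_cases heS : e ∈ S
    · have e1 : (B (y n - π (y n)) e : V) = 0 := by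
        refine fderiv_local hg hga z _ ?_ fun e₀ => ?_
        · rw [Pi.sub_apply, hπ1 _ _ heS, sub_self]; rfl
        · rw [Pi.sub_apply, hπ1 _ _ (hup e heS e₀), sub_self]; rfl
      rw [map_sub, Pi.sub_apply, Submodule.coe_sub, sub_eq_zero] at e1
      have e2 : (B (y n) e : V) = -(p n z e : V) := eq_neg_of_add_eq_zero_left (h6 n e heS)
      rw [hπ1 _ _ heS, ← e1, e2]
      split_ifs with hm
      · obtain ⟨β, hβ, hh⟩ := hm
        rw [← (h1 n).eq hβ hh, hk', smul_neg, neg_smul, neg_neg, smul_smul, inv_mul_cancel₀ hk0,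
          one_smul]
      · rw [hn e hm, neg_zero, smul_zero]
    · rw [hπ0 _ _ heS, if_neg fun hm => heS ((hSs a e hm.eq).mp ha)]
      simp
  have hDH : D ≤ H := by
    intro w hw
    have hex : ∀ a, ∃ u ∈ H, ∀ e, (u e : V) = if Match G z a e then (w a : V) else 0 := by
      intro a
      by_cases ha : a ∈ S
      · exact hcls a ha _ (w a).2
      · exact ⟨0, H.zero_mem, fun e => by simp [hw.1 a ha]⟩
    choose u hu1 hu2 using hex
    let k : C → ℕ := fun a => (Finset.univ.filter fun b => Match G z b a).card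
    have hk : ∀ a, (k a : ℝ) ≠ 0 := fun a => Nat.cast_ne_zero.mpr
      (Finset.card_ne_zero_of_mem (s := Finset.univ.filter fun b => Match G z b a) (a := a)
        (Finset.mem_filter.mpr ⟨Finset.mem_univ _, Match.refl z a⟩))
    have hkk : ∀ a e, Match G z a e → k a = k e := fun a e hm => by
      simp only [k]
      congr 1
      exact Finset.filter_congr fun b _ => ⟨fun h' => h'.trans hm, fun h' => h'.trans hm.symm⟩
    have hsum : w = ∑ a, (k a : ℝ)⁻¹ • u a := by
      funext e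
      apply Subtype.ext
      rw [Finset.sum_apply, Submodule.coe_sum]
      have : ∀ a, ((((k a : ℝ)⁻¹ • u a) e : P e) : V) =
          if Match G z a e then (k e : ℝ)⁻¹ • (w e : V) else 0 := by
        intro a
        rw [Pi.smul_apply, Submodule.coe_smul, hu2]
        split_ifs with hm
        · rw [hkk a e hm, hw.2 a e hm.eq]
        · exact smul_zero _
      simp only [this]
      rw [← Finset.sum_filter, Finset.sum_const, ← Nat.cast_smul_eq_nsmul ℝ, smul_smul,
        mul_inv_cancel₀ (hk e), one_smul]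
    rw [hsum]
    exact H.sum_mem fun a _ => H.smul_mem _ (hu1 a)
  have hEq : D = H := Submodule.eq_of_le_of_finrank_le hDH (Submodule.finrank_map_le _ _)
  obtain ⟨v, hv, hv0⟩ := Submodule.exists_mem_ne_zero_of_ne_bot (hP0 c)
  obtain ⟨w, hw1, hw2⟩ := hcls c hc v hv
  rw [← hEq] at hw1
  have := hw1.2 c d hcd
  rw [hw2, hw2, if_pos (Match.refl z c)] at this
  by_contra hm
  rw [if_neg hm] at this
  exact hv0 this

theorem rigid_balanced (hP : ∀ c d, G.nodeType c d → P c = P d) (hP0 : ∀ c, P c ≠ ⊥)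
    (hf : ContDiff ℝ 1 f) (hfa : G.Admissible P f) {x : ℝ → State P}
    (hx : IsPeriodicOrbit f x T) (hyp : IsHyperbolic f x T) (hrig : G.Rigid P f x T) :
    G.Balanced (Sync P x) := by
  obtain ⟨ℓ, hℓ⟩ := base_nondeg hf hx hyp
  obtain ⟨η₀, hη₀, hrig⟩ := hrig
  have hT := hx.1
  have hdiv : ∀ t, T * (t / T) = t := fun t => mul_div_cancel₀ _ hT.ne'
  have e1 : ∀ᶠ η in 𝓝[>] (0 : ℝ), ∀ ab : C × C, ∀ W : ℝ → State P,
      (∀ s, ‖W s - x (T * s)‖ ≤ η) → (∀ s, (W s ab.1 : V) = W s ab.2) →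
        ∀ t, (x t ab.1 : V) = x t ab.2 := by
    refine eventually_all.mpr fun ab => ?_
    by_cases hab : ∀ t, (x t ab.1 : V) = x t ab.2
    · exact Eventually.of_forall fun _ _ _ _ => hab
    · push Not at hab
      obtain ⟨t, ht⟩ := hab
      have hpos : 0 < ‖(x t ab.1 : V) - x t ab.2‖ / 2 := half_pos (norm_sub_pos_iff.mpr ht)
      filter_upwards [nhdsWithin_le_nhds (gt_mem_nhds hpos)] with η hη W h1 h2
      exfalso
      have h3 := h1 (t / T)
      rw [hdiv] at h3
      have h4 := (norm_coe_le _ ab.1).trans h3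
      have h5 := (norm_coe_le _ ab.2).trans h3
      rw [Pi.sub_apply, Submodule.coe_sub] at h4 h5
      rw [← h2] at h5
      have h6 := norm_sub_le_norm_sub_add_norm_sub (x t ab.1 : V) (W (t / T) ab.1) (x t ab.2)
      rw [norm_sub_rev] at h4
      linarith
  obtain ⟨s₀, t₀, hst⟩ := hx.2.2.2
  have hpos : 0 < ‖x s₀ - x t₀‖ / 2 := half_pos (norm_sub_pos_iff.mpr hst)
  obtain ⟨η, ⟨⟨⟨he1, he2⟩, he3⟩, he4⟩, hη⟩ := ((((e1.and
    (nhdsWithin_le_nhds (gt_mem_nhds hpos))).and (nhdsWithin_le_nhds (ge_mem_nhds hη₀))).and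
    (nhdsWithin_le_nhds (ge_mem_nhds hT))).and self_mem_nhdsWithin).exists
  have hη' : 0 < η := hη
  have hgood : Good G f (fun s => x (T * s)) T η ℓ (fun _ => 0) (fun s => x (T * s)) T :=
    ⟨Network.SmoothAdmissible.zero, ⟨0, hη', fun z => ⟨by simp, by
      rw [fderiv_fun_const]; exact ContinuousLinearMap.opNorm_zero.le⟩⟩,
      by simpa using sol_of_orbit hx,
      by simpa using hη', ⟨0, hη', fun s => by simp⟩, by simpa using hℓ⟩
  obtain ⟨q, W, T', s', hm'⟩ := exists_maxi hgood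
  obtain ⟨s, hm, hgen⟩ := hm'.generic hf he4
  have hmatch : ∀ c d, (W s c : V) = W s d → Match G (W s) c d := by
    intro c d hcd
    by_cases hc : ((f (W s) + q (W s)) c : V) = 0
    · exact hm.steady hP hP0 hf hfa he4 (fun a ha e₀ => hm.upstream hP hP0 hf he4 hgen ha e₀) hc hcd
    · exact hm.moving hP hP0 hf he4 hgen hc hcd
  obtain ⟨η₁, hη₁, hb⟩ := hm.1.bd
  obtain ⟨η₂, hη₂, hn⟩ := hm.1.near
  have hT' : 0 < T' := by
    have := (abs_lt.mp hm.1.per).1
    linarith
  have hdiv' : ∀ t, T' * t / T' = t := fun t => mul_div_cancel_left₀ _ hT'.ne'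
  have hall : ∀ c d, (W s c : V) = W s d → ∀ t, (x t c : V) = x t d := by
    intro c d hcd
    let D : Submodule ℝ (State P) :=
      { carrier := {y | ∀ a b, (W s a : V) = W s b → (y a : V) = y b}
        add_mem' := fun {x y} hx hy a b hab => by simp [hx a b hab, hy a b hab]
        zero_mem' := fun a b _ => rfl
        smul_mem' := fun t y hy a b hab => by simp [hy a b hab] }
    have hinv := hm.1.sol.invariant (hf.add hm.1.sm.contDiff) D (fun y hy a b hab => by
      obtain ⟨β, hβ, hh⟩ := hmatch a b hab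
      refine (hfa.add hm.1.sm.admissible).eq hβ (Prod.ext (hy a b hab) (funext fun e => ?_))
      exact hy _ _ (congrFun (congrArg Prod.snd hh) e)) (s₁ := s) (fun a b hab => hab)
    exact he1 (c, d) W (fun t => (hn t).trans hη₂.le) fun t => hinv t c d hcd
  have horb : IsPeriodicOrbit (fun z => f z + q z) (fun t => W (t / T')) T' := by
    refine ⟨hT', fun t => ?_, fun t => ?_, T' * (s₀ / T), T' * (t₀ / T), fun hh => ?_⟩
    · have := (hm.1.sol.1 (t / T')).scomp t ((hasDerivAt_id t).div_const T')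
      rw [smul_smul, one_div, inv_mul_cancel₀ hT'.ne', one_smul] at this
      exact this
    · simp only [add_div, div_self hT'.ne']
      exact hm.1.sol.2 _
    · simp only [hdiv'] at hh
      have h1 := hn (s₀ / T)
      have h2 := hn (t₀ / T)
      rw [hdiv] at h1 h2
      rw [← hh] at h2
      have h6 := norm_sub_le_norm_sub_add_norm_sub (x s₀) (W (s₀ / T)) (x t₀)
      rw [norm_sub_rev] at h1
      linarith
  intro c d hcd
  have h1 := hrig q hm.1.sm (fun z => ⟨(hb z).1.trans (hη₁.le.trans he3),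
    (hb z).2.trans (hη₁.le.trans he3)⟩) _ T' horb (hm.1.per.le.trans he3)
    (fun t => by simpa only [hdiv'] using (hn t).trans (hη₂.le.trans he3)) c d hcd
  have h2 := h1.2 (T' * s)
  simp only [hdiv'] at h2
  obtain ⟨β, hβ, hh⟩ := hmatch c d h2
  exact ⟨β, hβ, fun e => ⟨hP _ _ (G.tail_type _ _ (hβ.2 e)),
    hall _ _ (congrFun (congrArg Prod.snd hh) e)⟩⟩

end Pool.Agent.Lib.MP_e1010f_an
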