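import Pool.Agent.Lib.MP_e1010f_an.Defs

set_option autoImplicit false

open Filter Topology Set
open scoped ContDiff

namespace Pool.Agent.Lib.MP_e1010f_an

variable {C A : Type} {G : Network C A}

theorem Network.IsInputIso.refl (G : Network C A) (c : C) : G.IsInputIso c c (Equiv.refl _) :=
  ⟨G.nodeType.refl c, fun e => G.arrowType.refl e.1⟩

theorem Network.IsInputIso.symm {c d : C} {β : G.In c ≃ G.In d} (h : G.IsInputIso c d β) :
    G.IsInputIso d c β.symm :=
  ⟨G.nodeType.symm h.1, fun e => G.arrowType.symm (by simpa using h.2 (β.symm e))⟩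

theorem Network.IsInputIso.trans {c d e : C} {β : G.In c ≃ G.In d} {γ : G.In d ≃ G.In e}
    (h : G.IsInputIso c d β) (h' : G.IsInputIso d e γ) : G.IsInputIso c e (β.trans γ) :=
  ⟨G.nodeType.trans h.1 h'.1, fun a => G.arrowType.trans (h.2 a) (h'.2 (β a))⟩

variable {V : Type} [NormedAddCommGroup V] [NormedSpace ℝ V] {P : C → Submodule ℝ V}

/-- The state of `d` and of its inputs, relabelled along `β`. -/
def inp {c d : C} (β : G.In c ≃ G.In d) (x : State P) : V × (G.In c → V) :=
  ((x d : V), fun e => (x (G.tail (β e).1) : V))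

theorem Network.Admissible.eq {g : State P → State P} (hg : G.Admissible P g) {c d : C}
    {β : G.In c ≃ G.In d} (hβ : G.IsInputIso c d β) {x y : State P}
    (h : inp (Equiv.refl (G.In c)) x = inp β y) : (g x c : V) = g y d := by
  obtain ⟨F, h1, h2⟩ := hg
  rw [h1, h1, h2 c d β hβ]
  exact congrArg (F c) h

theorem Network.Admissible.add {g h : State P → State P} (hg : G.Admissible P g)
    (hh : G.Admissible P h) : G.Admissible P (fun z => g z + h z) := by
  obtain ⟨F, h1, h2⟩ := hg
  obtain ⟨F', h1', h2'⟩ := hh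
  refine ⟨fun c w => F c w + F' c w, fun x c => ?_, fun c d β hβ v z => ?_⟩
  · simp [h1, h1']
  · simp only [h2 c d β hβ, h2' c d β hβ]

/-- Matching nodes at the state `z`. -/
def Match (G : Network C A) (z : State P) (c d : C) : Prop :=
  ∃ β : G.In c ≃ G.In d, G.IsInputIso c d β ∧ inp (Equiv.refl (G.In c)) z = inp β z

theorem Match.refl (z : State P) (c : C) : Match G z c c := ⟨_, .refl G c, rfl⟩

theorem Match.eq {z : State P} {c d : C} (h : Match G z c d) : (z c : V) = z d := by
  obtain ⟨β, -, h⟩ := h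
  exact congrArg Prod.fst h

theorem Match.symm {z : State P} {c d : C} (h : Match G z c d) : Match G z d c := by
  obtain ⟨β, h1, h2⟩ := h
  refine ⟨β.symm, h1.symm, Prod.ext (congrArg Prod.fst h2).symm (funext fun e => ?_)⟩
  obtain ⟨a, rfl⟩ := β.surjective e
  have := congrFun (congrArg Prod.snd h2) a
  simp only [inp, Equiv.refl_apply] at this ⊢
  rw [β.symm_apply_apply]
  exact this.symm

theorem Match.trans {z : State P} {c d e : C} (h : Match G z c d) (h' : Match G z d e) :
    Match G z c e := by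
  obtain ⟨β, h1, h2⟩ := h
  obtain ⟨γ, h3, h4⟩ := h'
  have h5 : (z c : V) = z d := congrArg Prod.fst h2
  have h6 : (z d : V) = z e := congrArg Prod.fst h4
  refine ⟨β.trans γ, h1.trans h3, Prod.ext (h5.trans h6) (funext fun a => ?_)⟩
  exact (congrFun (congrArg Prod.snd h2) a).trans (congrFun (congrArg Prod.snd h4) (β a))

variable [Fintype A] [DecidableEq C]

theorem Network.SmoothAdmissible.admissible {p : State P → State P}
    (hp : G.SmoothAdmissible P p) : G.Admissible P p :=
  let ⟨F, _, h⟩ := hp; ⟨F, h⟩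

theorem Network.SmoothAdmissible.zero : G.SmoothAdmissible P (fun _ => 0) :=
  ⟨fun _ _ => 0, fun _ => contDiff_const, fun _ _ => rfl, fun _ _ _ _ _ _ => rfl⟩

theorem Network.SmoothAdmissible.add_smul {q p : State P → State P}
    (hq : G.SmoothAdmissible P q) (hp : G.SmoothAdmissible P p) (ε : ℝ) :
    G.SmoothAdmissible P (fun z => q z + ε • p z) := by
  obtain ⟨F, h0, h1, h2⟩ := hq
  obtain ⟨F', h0', h1', h2'⟩ := hp
  refine ⟨fun c w => F c w + ε • F' c w, fun c => (h0 c).add ((h0' c).const_smul ε),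
    fun x c => ?_, fun c d β hβ v z => ?_⟩
  · simp [h1, h1']
  · simp only [h2 c d β hβ, h2' c d β hβ]

variable [Fintype C]

/-- Evaluation at a node. -/
def ev (P : C → Submodule ℝ V) (c : C) : State P →L[ℝ] V :=
  (P c).subtypeL.comp (ContinuousLinearMap.proj c)

omit [Fintype A] [DecidableEq C] [Fintype C] in
@[simp] theorem ev_apply (c : C) (x : State P) : ev P c x = (x c : V) := rfl

omit [Fintype A] [DecidableEq C] in
theorem norm_coe_le (x : State P) (c : C) : ‖(x c : V)‖ ≤ ‖x‖ := norm_le_pi_norm x c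

theorem inp_contDiff {c d : C} (β : G.In c ≃ G.In d) :
    ContDiff ℝ ∞ (inp β : State P → V × (G.In c → V)) :=
  (ev P d).contDiff.prodMk (contDiff_pi.mpr fun e => (ev P (G.tail (β e).1)).contDiff)

theorem dist_inp_le {c d : C} (β : G.In c ≃ G.In d) (x y : State P) :
    dist (inp β x) (inp β y) ≤ dist x y := by
  rw [Prod.dist_eq, max_le_iff, dist_pi_le_iff dist_nonneg]
  exact ⟨dist_le_pi_dist x y d, fun e => dist_le_pi_dist x y _⟩

variable [FiniteDimensional ℝ V]

theorem Network.SmoothAdmissible.contDiff {p : State P → State P}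
    (hp : G.SmoothAdmissible P p) : ContDiff ℝ 1 p := by
  obtain ⟨F, h0, h1, -⟩ := hp
  refine contDiff_pi.mpr fun c => ?_
  obtain ⟨π, hπ⟩ := Submodule.ClosedComplemented.of_finiteDimensional (P c)
  have : (fun x => p x c) = fun x => π (F c (inp (Equiv.refl _) x)) := by
    funext x
    rw [← hπ (p x c), h1]
    rfl
  rw [this]
  exact (π.contDiff.comp ((h0 c).comp (inp_contDiff _))).of_le (by exact_mod_cast le_top)

theorem exists_bump (hP : ∀ c d, G.nodeType c d → P c = P d) (c : C) (z : State P) (v : V)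
    (hv : v ∈ P c) : ∃ N : ℝ, ∀ r > 0, ∃ p : State P → State P, G.SmoothAdmissible P p ∧
      (∃ M, ∀ x, ‖p x‖ ≤ M ∧ ‖fderiv ℝ p x‖ ≤ M) ∧ (∀ x, ‖p x‖ ≤ N) ∧
      (∃ k : ℝ, 1 ≤ k ∧ (p z c : V) = k • v) ∧
      ∀ x e, (∀ β : G.In c ≃ G.In e, G.IsInputIso c e β →
        r ≤ dist (inp β x) (inp (Equiv.refl (G.In c)) z)) → (p x e : V) = 0 := by
  classical
  set N : ℝ := ∑ e : C, (Fintype.card (G.In c ≃ G.In e) : ℝ) with hN
  have hNe : ∀ e, (Fintype.card (G.In c ≃ G.In e) : ℝ) ≤ N := fun e =>
    Finset.single_le_sum (f := fun e => (Fintype.card (G.In c ≃ G.In e) : ℝ))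
      (fun _ _ => Nat.cast_nonneg _) (Finset.mem_univ e)
  have hN0 : 0 ≤ N := le_trans (Nat.cast_nonneg _) (hNe c)
  refine ⟨N * ‖v‖, fun r hr => ?_⟩
  let φ : ContDiffBump (inp (Equiv.refl (G.In c)) z) := ⟨r / 2, r, half_pos hr, half_lt_self hr⟩
  let a : (e : C) → V × (G.In e → V) → ℝ := fun e w =>
    ∑ β : G.In c ≃ G.In e, if G.IsInputIso c e β then φ (w.1, fun i => w.2 (β i)) else 0
  have hmem : ∀ e w, a e w • v ∈ P e := by
    intro e w
    by_cases h : G.nodeType c e
    · exact (P e).smul_mem _ (hP c e h ▸ hv)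
    · have : a e w = 0 := Finset.sum_eq_zero fun β _ => if_neg fun hβ => h hβ.1
      rw [this, zero_smul]
      exact (P e).zero_mem
  let p : State P → State P := fun x e => ⟨a e (inp (Equiv.refl _) x) • v, hmem _ _⟩
  have hp : ∀ x e, (p x e : V) = (∑ β : G.In c ≃ G.In e,
      if G.IsInputIso c e β then φ (inp β x) else 0) • v := fun x e => rfl
  have hbd : ∀ x, ‖p x‖ ≤ N * ‖v‖ := by
    intro x
    refine (pi_norm_le_iff_of_nonneg (by positivity)).mpr fun e => ?_
    change ‖(p x e : V)‖ ≤ _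
    rw [hp, norm_smul]
    refine mul_le_mul_of_nonneg_right ((norm_sum_le _ _).trans (le_trans ?_ (hNe e)))
      (norm_nonneg _)
    refine (Finset.sum_le_card_nsmul _ _ 1 fun β _ => ?_).trans (by simp)
    split_ifs
    · rw [Real.norm_of_nonneg φ.nonneg]; exact φ.le_one
    · simp
  obtain ⟨K, hK⟩ := (φ.contDiff (n := 1)).lipschitzWith_of_hasCompactSupport φ.hasCompactSupport
    one_ne_zero
  have hlip : LipschitzWith ⟨N * K * ‖v‖, by positivity⟩ p := by
    refine LipschitzWith.of_dist_le_mul fun x y => ?_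
    refine (dist_pi_le_iff (by positivity)).mpr fun e => ?_
    change dist (p x e : V) (p y e : V) ≤ N * K * ‖v‖ * dist x y
    rw [hp, hp, dist_eq_norm, ← sub_smul, norm_smul, ← Finset.sum_sub_distrib, mul_right_comm]
    refine mul_le_mul_of_nonneg_right ((norm_sum_le _ _).trans ?_) (norm_nonneg _)
    refine (Finset.sum_le_card_nsmul _ _ (K * dist x y) fun β _ => ?_).trans ?_
    · split_ifs
      · rw [← dist_eq_norm]
        exact (hK.dist_le_mul _ _).trans (mul_le_mul_of_nonneg_left (dist_inp_le β x y) K.2)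
      · simp only [sub_self, norm_zero]; positivity
    · rw [Finset.card_univ, nsmul_eq_mul, mul_assoc]
      exact mul_le_mul_of_nonneg_right (hNe e) (by positivity)
  refine ⟨p, ⟨fun e w => a e w • v, fun e => ?_, fun x e => rfl, fun d e γ hγ u w => ?_⟩,
    ⟨max (N * ‖v‖) (N * K * ‖v‖), fun x => ⟨(hbd x).trans (le_max_left _ _),
      (norm_fderiv_le_of_lipschitz ℝ hlip).trans (le_max_right _ _)⟩⟩, hbd, ⟨_, ?_, hp z c⟩, ?_⟩
  · refine ContDiff.smul (ContDiff.sum fun β _ => ?_) contDiff_const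
    split_ifs
    · exact φ.contDiff.comp (contDiff_fst.prodMk (contDiff_pi.mpr fun i =>
        (contDiff_apply ℝ V (β i)).comp contDiff_snd))
    · exact contDiff_const
  · change a e (u, w) • v = a d (u, fun i => w (γ i)) • v
    congr 1
    refine (Fintype.sum_equiv ((Equiv.refl (G.In c)).equivCongr γ) _ _ fun β => ?_).symm
    have hβ : (Equiv.refl (G.In c)).equivCongr γ β = β.trans γ := rfl
    rw [hβ]
    by_cases h : G.IsInputIso c d β
    · rw [if_pos h, if_pos (h.trans hγ)]
      rfl
    · rw [if_neg h, if_neg]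
      intro h'
      apply h
      have h2 := h'.trans hγ.symm
      rwa [Equiv.trans_assoc, Equiv.self_trans_symm, Equiv.trans_refl] at h2
  · refine le_trans ?_ (Finset.single_le_sum (f := fun β : G.In c ≃ G.In c =>
      if G.IsInputIso c c β then φ (inp β z) else 0) (fun β _ => ?_)
      (Finset.mem_univ (Equiv.refl _)))
    · rw [if_pos (Network.IsInputIso.refl G c), φ.one_of_mem_closedBall]
      exact Metric.mem_closedBall_self φ.rIn_pos.le
    · split_ifs
      · exact φ.nonneg
      · exact le_rfl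
  · intro x e h
    rw [hp, Finset.sum_eq_zero, zero_smul]
    intro β _
    split_ifs with hβ
    · exact φ.zero_of_le_dist (h β hβ)
    · rfl

end Pool.Agent.Lib.MP_e1010f_an
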