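import Pool.Agent.Lib.MP_e1010f_an.Aux1
import Pool.Agent.Lib.MP_e1010f_an.Net

set_option autoImplicit false

open Filter Topology Set MeasureTheory

namespace Pool.Agent.Lib.MP_e1010f_an

variable {C A : Type} {V : Type} [NormedAddCommGroup V] [NormedSpace ℝ V] {P : C → Submodule ℝ V}

/-- Number of asynchronous pairs plus number of moving nodes. -/
noncomputable def cnt (z w : State P) : ℕ :=
  {ab : C × C | (z ab.1 : V) ≠ z ab.2}.ncard + {a : C | (w a : V) ≠ 0}.ncard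

theorem deriv_unique {u v : ℝ → V} {a b : V} {t : ℝ} (hu : HasDerivAt u a t)
    (hv : HasDerivAt v b t) (h : ∀ᶠ s in 𝓝 t, u s = v s) : a = b :=
  hu.unique (hv.congr_of_eventuallyEq h)

theorem deriv_pert {E : Type} [NormedAddCommGroup E] [NormedSpace ℝ E] {f q p : E → E}
    (hg : ContDiff ℝ 1 fun z => f z + q z) (hp : ContDiff ℝ 1 p) {u : ℝ → E} {y z : E}
    (hu : HasDerivAt u y 0) (hz : u 0 = z) :
    HasDerivAt (fun ε => f (u ε) + (q (u ε) + ε • p (u ε)))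
      (fderiv ℝ (fun z => f z + q z) z y + p z) 0 := by
  subst hz
  have d1 := (hg.differentiable one_ne_zero (u 0)).hasFDerivAt.comp_hasDerivAt 0 hu
  have d2 := (hp.differentiable one_ne_zero (u 0)).hasFDerivAt.comp_hasDerivAt 0 hu
  have := d1.add ((hasDerivAt_id (0 : ℝ)).smul d2)
  simp only [id, zero_smul, one_smul, zero_add] at this
  simp only [← add_assoc]
  exact this

variable [Fintype C]

theorem ev_deriv {u : ℝ → State P} {y : State P} {t : ℝ} (hu : HasDerivAt u y t) (a : C) :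
    HasDerivAt (fun ε => (u ε a : V)) (y a : V) t :=
  (ev P a).hasFDerivAt.comp_hasDerivAt t hu

theorem cnt_le (z w : State P) : cnt z w ≤ Nat.card (C × C) + Nat.card C :=
  add_le_add (ncard_le_card _) (ncard_le_card _)

theorem stable {ι : Type} {l : Filter ι} {z_ w_ : ι → State P} {z w : State P}
    (hz : Tendsto z_ l (𝓝 z)) (hw : Tendsto w_ l (𝓝 w))
    (h : ∀ᶠ i in l, cnt (z_ i) (w_ i) ≤ cnt z w) :
    ∀ᶠ i in l, cnt (z_ i) (w_ i) = cnt z w ∧
      (∀ a b, (z_ i a : V) = z_ i b ↔ (z a : V) = z b) ∧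
      ∀ a, (w_ i a : V) = 0 ↔ (w a : V) = 0 := by
  have h1 : ∀ᶠ i in l, ∀ ab : C × C, (z ab.1 : V) ≠ z ab.2 → (z_ i ab.1 : V) ≠ z_ i ab.2 := by
    refine eventually_all.mpr fun ab => ?_
    by_cases hab : (z ab.1 : V) = z ab.2
    · exact Eventually.of_forall fun i h => absurd hab h
    · have ht := (((ev P ab.1).continuous.tendsto z).comp hz).sub
        (((ev P ab.2).continuous.tendsto z).comp hz)
      filter_upwards [ht.eventually_ne (sub_ne_zero.mpr hab)] with i hi _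
      exact sub_ne_zero.mp hi
  have h2 : ∀ᶠ i in l, ∀ a : C, (w a : V) ≠ 0 → (w_ i a : V) ≠ 0 := by
    refine eventually_all.mpr fun a => ?_
    by_cases ha : (w a : V) = 0
    · exact Eventually.of_forall fun i h => absurd ha h
    · filter_upwards [(((ev P a).continuous.tendsto w).comp hw).eventually_ne ha] with i hi _
      exact hi
  filter_upwards [h, h1, h2] with i hi hi1 hi2
  have s1 : {ab : C × C | (z ab.1 : V) ≠ z ab.2} ⊆ {ab : C × C | (z_ i ab.1 : V) ≠ z_ i ab.2} := hi1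
  have s2 : {a : C | (w a : V) ≠ 0} ⊆ {a : C | (w_ i a : V) ≠ 0} := hi2
  have c1 := ncard_le_ncard s1
  have c2 := ncard_le_ncard s2
  unfold cnt at hi ⊢
  have e1 := eq_of_subset_of_ncard_le s1 (by omega)
  have e2 := eq_of_subset_of_ncard_le s2 (by omega)
  refine ⟨by omega, fun a b => ?_, fun a => ?_⟩
  · exact not_iff_not.mp (Set.ext_iff.mp e1 (a, b)).symm
  · exact not_iff_not.mp (Set.ext_iff.mp e2 a).symm

variable [Fintype A] [DecidableEq C]

/-- The class of perturbed systems and orbits under consideration. -/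
structure Good (G : Network C A) (f : State P → State P) (W₀ : ℝ → State P) (T η : ℝ)
    (ℓ : State P →L[ℝ] ℝ) (q : State P → State P) (W : ℝ → State P) (T' : ℝ) : Prop where
  sm : G.SmoothAdmissible P q
  bd : ∃ η' < η, ∀ z, ‖q z‖ ≤ η' ∧ ‖fderiv ℝ q z‖ ≤ η'
  sol : Sol (fun z => f z + q z) W T'
  per : |T' - T| < η
  near : ∃ η' < η, ∀ s, ‖W s - W₀ s‖ ≤ η'
  nd : Nondeg ℓ (fun z => f z + q z) W T'

/-- Generic points: maximal number of asynchronous pairs and moving nodes. -/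
def Maxi (G : Network C A) (f : State P → State P) (W₀ : ℝ → State P) (T η : ℝ)
    (ℓ : State P →L[ℝ] ℝ) (q : State P → State P) (W : ℝ → State P) (T' s : ℝ) : Prop :=
  Good G f W₀ T η ℓ q W T' ∧ ∀ q' W' T'' s', Good G f W₀ T η ℓ q' W' T'' →
    cnt (W' s') (f (W' s') + q' (W' s')) ≤ cnt (W s) (f (W s) + q (W s))

variable {G : Network C A} {f : State P → State P} {W₀ : ℝ → State P} {T η : ℝ}
    {ℓ : State P →L[ℝ] ℝ} {q : State P → State P} {W : ℝ → State P} {T' s : ℝ}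

theorem exists_maxi (h : Good G f W₀ T η ℓ q W T') :
    ∃ q W T' s, Maxi G f W₀ T η ℓ q W T' s := by
  let S : Set ℕ := {n | ∃ q W T' s, Good G f W₀ T η ℓ q W T' ∧ cnt (W s) (f (W s) + q (W s)) = n}
  have hb : BddAbove S := ⟨Nat.card (C × C) + Nat.card C, by
    rintro n ⟨q, W, T', s, -, rfl⟩
    exact cnt_le _ _⟩
  obtain ⟨q, W, T', s, h1, h2⟩ := Nat.sSup_mem (s := S) ⟨_, q, W, T', 0, h, rfl⟩ hb
  refine ⟨q, W, T', s, h1, fun q' W' T'' s' h' => ?_⟩
  rw [h2]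
  exact le_csSup hb ⟨q', W', T'', s', h', rfl⟩

variable [FiniteDimensional ℝ V]

theorem Good.perturb (hf : ContDiff ℝ 1 f) (h : Good G f W₀ T η ℓ q W T') :
    ∃ K : ℝ, ∀ p : State P → State P, G.SmoothAdmissible P p →
      (∃ M, ∀ x, ‖p x‖ ≤ M ∧ ‖fderiv ℝ p x‖ ≤ M) →
      ∃ (Wε : ℝ → ℝ → State P) (Tε : ℝ → ℝ) (y : ℝ → State P),
        (∀ᶠ ε in 𝓝 (0 : ℝ), Good G f W₀ T η ℓ (fun z => q z + ε • p z) (Wε ε) (Tε ε)) ∧
        Wε 0 = W ∧ (∀ s, HasDerivAt (fun ε => Wε ε s) (y s) 0) ∧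
        ∀ s, ‖y s‖ ≤ K * ∫ r in (0 : ℝ)..1, ‖p (W r)‖ := by
  obtain ⟨K, hK⟩ := Pool.Agent.Lib.MP_e1010f_an.perturb (hf.add h.sm.contDiff) h.sol h.nd
  refine ⟨K, fun p hp ⟨M, hM⟩ => ?_⟩
  obtain ⟨Wε, Tε, y, h1, h2, h3, h4, h5⟩ := hK p hp.contDiff
  refine ⟨Wε, Tε, y, ?_, h3, h4, h5⟩
  obtain ⟨η₁, hη₁, hb⟩ := h.bd
  obtain ⟨η₂, hη₂, hn⟩ := h.near
  have hper := h.per
  have ht : Tendsto (fun ε : ℝ => η₁ + |ε| * M) (𝓝 0) (𝓝 η₁) := by
    have : Continuous fun ε : ℝ => η₁ + |ε| * M := by fun_prop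
    simpa using this.tendsto 0
  filter_upwards [h1, h2 (η - |T' - T|) (by linarith), h2 ((η - η₂) / 2) (by linarith),
    ht.eventually (gt_mem_nhds hη₁)] with ε e1 e2 e3 e4
  simp only [add_assoc] at e1
  refine ⟨h.sm.add_smul hp ε, ⟨_, e4, fun z => ⟨?_, ?_⟩⟩, e1.1, ?_,
    ⟨η₂ + (η - η₂) / 2, by linarith, fun s => ?_⟩, e1.2⟩
  · refine (norm_add_le _ _).trans (add_le_add (hb z).1 ?_)
    rw [norm_smul]
    exact mul_le_mul_of_nonneg_left (hM z).1 (abs_nonneg ε)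
  · have h6 : HasFDerivAt (fun z => q z + ε • p z) _ z :=
      (h.sm.contDiff.differentiable one_ne_zero _).hasFDerivAt.add
        ((hp.contDiff.differentiable one_ne_zero _).hasFDerivAt.const_smul ε)
    rw [h6.fderiv]
    refine (ContinuousLinearMap.opNorm_add_le _ _).trans (add_le_add (hb z).2 ?_)
    exact (ContinuousLinearMap.opNorm_smul_le _ _).trans
      (mul_le_mul_of_nonneg_left (hM z).2 (abs_nonneg ε))
  · have := abs_sub_le (Tε ε) T' T
    linarith [e2.1]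
  · have := norm_sub_le_norm_sub_add_norm_sub (Wε ε s) (W s) (W₀ s)
    linarith [e3.2 s, hn s]

theorem Maxi.time (hf : ContDiff ℝ 1 f) (h : Maxi G f W₀ T η ℓ q W T' s) :
    ∀ᶠ s' in 𝓝 s, Maxi G f W₀ T η ℓ q W T' s' ∧
      (∀ a b, (W s' a : V) = W s' b ↔ (W s a : V) = W s b) ∧
      ∀ a, ((f (W s') + q (W s')) a : V) = 0 ↔ ((f (W s) + q (W s)) a : V) = 0 := by
  have hc := h.1.sol.continuous
  have hc2 : Continuous fun s => f (W s) + q (W s) :=
    (hf.add h.1.sm.contDiff).continuous.comp hc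
  filter_upwards [stable (hc.tendsto s) (hc2.tendsto s)
    (Eventually.of_forall fun s' => h.2 q W T' s' h.1)] with s' hs'
  exact ⟨⟨h.1, fun q' W' T'' s'' h' => hs'.1 ▸ h.2 q' W' T'' s'' h'⟩, hs'.2⟩

theorem Maxi.sync (hf : ContDiff ℝ 1 f) (hη : η ≤ T) (h : Maxi G f W₀ T η ℓ q W T' s) {a b : C}
    (hab : (W s a : V) = W s b) : ((f (W s) + q (W s)) a : V) = (f (W s) + q (W s)) b := by
  have hT : T' ≠ 0 := by
    have := (abs_lt.mp h.1.per).1
    linarith
  have h1 := deriv_unique ((ev P a).hasFDerivAt.comp_hasDerivAt s (h.1.sol.1 s))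
    ((ev P b).hasFDerivAt.comp_hasDerivAt s (h.1.sol.1 s)) (by
      filter_upwards [h.time hf] with s' hs'
      exact (hs'.2.1 a b).mpr hab)
  rw [map_smul, map_smul] at h1
  exact smul_right_injective V hT h1

theorem Maxi.lin (hf : ContDiff ℝ 1 f) (hη : η ≤ T) (h : Maxi G f W₀ T η ℓ q W T' s) :
    ∃ K : ℝ, ∀ p : State P → State P, G.SmoothAdmissible P p →
      (∃ M, ∀ x, ‖p x‖ ≤ M ∧ ‖fderiv ℝ p x‖ ≤ M) →
      ∃ y : State P, ‖y‖ ≤ K * (∫ r in (0 : ℝ)..1, ‖p (W r)‖) ∧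
        (∀ a b, (W s a : V) = W s b → (y a : V) = y b) ∧
        (∀ a b, (W s a : V) = W s b →
          (fderiv ℝ (fun z => f z + q z) (W s) y a : V) + p (W s) a =
          (fderiv ℝ (fun z => f z + q z) (W s) y b : V) + p (W s) b) ∧
        ∀ a, ((f (W s) + q (W s)) a : V) = 0 →
          (fderiv ℝ (fun z => f z + q z) (W s) y a : V) + p (W s) a = 0 := by
  obtain ⟨K, hK⟩ := h.1.perturb hf
  refine ⟨K, fun p hp hM => ?_⟩
  obtain ⟨Wε, Tε, y, h1, h2, h3, h4⟩ := hK p hp hM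
  have hg : ContDiff ℝ 1 fun z => f z + q z := hf.add h.1.sm.contDiff
  have h20 : Wε 0 s = W s := by rw [h2]
  have d3 := deriv_pert hg hp.contDiff (h3 s) h20
  have t1 : Tendsto (fun ε => Wε ε s) (𝓝 0) (𝓝 (W s)) := by
    have := (h3 s).continuousAt.tendsto
    rwa [h20] at this
  have t2 : Tendsto (fun ε => f (Wε ε s) + (q (Wε ε s) + ε • p (Wε ε s))) (𝓝 0)
      (𝓝 (f (W s) + q (W s))) := by
    have := d3.continuousAt.tendsto
    rwa [h20, zero_smul, add_zero] at this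
  have hst := stable t1 t2 (by
    filter_upwards [h1] with ε hε
    exact h.2 (fun z => q z + ε • p z) (Wε ε) (Tε ε) s hε)
  refine ⟨y s, h4 s, fun a b hab => ?_, fun a b hab => ?_, fun a ha => ?_⟩
  · refine deriv_unique (ev_deriv (h3 s) a) (ev_deriv (h3 s) b) ?_
    filter_upwards [hst] with ε hε
    exact (hε.2.1 a b).mpr hab
  · have := deriv_unique (ev_deriv d3 a) (ev_deriv d3 b) (by
      filter_upwards [hst, h1] with ε hε hG
      have hm : Maxi G f W₀ T η ℓ (fun z => q z + ε • p z) (Wε ε) (Tε ε) s :=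
        ⟨hG, fun q' W' T'' s'' h' => (h.2 q' W' T'' s'' h').trans hε.1.ge⟩
      exact hm.sync hf hη ((hε.2.1 a b).mpr hab))
    simpa only [Pi.add_apply, Submodule.coe_add] using this
  · have := deriv_unique (ev_deriv d3 a) (hasDerivAt_const 0 0) (by
      filter_upwards [hst] with ε hε
      exact (hε.2.2 a).mpr ha)
    simpa only [Pi.add_apply, Submodule.coe_add] using this

theorem Maxi.generic (hf : ContDiff ℝ 1 f) (hη : η ≤ T) (h : Maxi G f W₀ T η ℓ q W T' s) :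
    ∃ s₁, Maxi G f W₀ T η ℓ q W T' s₁ ∧ ∀ b, ((f (W s₁) + q (W s₁)) b : V) ≠ 0 →
      ∀ e, volume {t | (W t e : V) = W s₁ b} = 0 := by
  have hT : T' ≠ 0 := by
    have := (abs_lt.mp h.1.per).1
    linarith
  obtain ⟨s₁, h1, h2⟩ := exists_generic (fun e t => (W t e : V))
    (fun e => (ev P e).continuous.comp h.1.sol.continuous) (h.time hf)
    {b | ((f (W s) + q (W s)) b : V) ≠ 0} (fun b hb t ht => by
      refine ⟨_, ?_, (ev P b).hasFDerivAt.comp_hasDerivAt t (h.1.sol.1 t)⟩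
      rw [map_smul]
      exact smul_ne_zero hT fun h0 => hb ((ht.2.2 b).mp h0))
  exact ⟨s₁, h1.1, fun b hb => h2 b fun h0 => hb ((h1.2.2 b).mpr h0)⟩

end Pool.Agent.Lib.MP_e1010f_an
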