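import Mathlib

set_option autoImplicit false

open Filter Topology Set

namespace Pool.Agent.Lib.MP_e1010f_an

variable {E : Type} [NormedAddCommGroup E] [NormedSpace ℝ E]

/-- Extension of a function on the unit interval to the line. -/
noncomputable def ext (u : C(unitInterval, E)) (r : ℝ) : E := u (projIcc 0 1 zero_le_one r)

omit [NormedSpace ℝ E] in
theorem ext_continuous (u : C(unitInterval, E)) : Continuous (ext u) :=
  u.continuous.comp continuous_projIcc

omit [NormedSpace ℝ E] in
theorem ext_of_mem (u : C(unitInterval, E)) {r : ℝ} (hr : r ∈ Icc (0 : ℝ) 1) :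
    ext u r = u ⟨r, hr⟩ := by
  rw [ext, projIcc_of_mem _ hr]

omit [NormedSpace ℝ E] in
theorem ext_coe (u : C(unitInterval, E)) (s : unitInterval) : ext u s = u s := by
  rw [ext, projIcc_val]

omit [NormedSpace ℝ E] in
theorem norm_ext_le (u : C(unitInterval, E)) (r : ℝ) : ‖ext u r‖ ≤ ‖u‖ := u.norm_coe_le_norm _

/-- Restriction of a continuous function to the unit interval. -/
def res (W : ℝ → E) (hW : Continuous W) : C(unitInterval, E) :=
  ⟨fun s => W s, hW.comp continuous_subtype_val⟩

omit [NormedSpace ℝ E] in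
@[simp] theorem res_apply (W : ℝ → E) (hW : Continuous W) (s : unitInterval) :
    res W hW s = W s := rfl

omit [NormedSpace ℝ E] in
theorem ext_res (W : ℝ → E) (hW : Continuous W) {r : ℝ} (hr : r ∈ Icc (0 : ℝ) 1) :
    ext (res W hW) r = W r := by
  rw [ext_of_mem _ hr]; rfl

variable [CompleteSpace E]

/-- The primitive as a linear map. -/
noncomputable def intL : C(unitInterval, E) →ₗ[ℝ] C(unitInterval, E) where
  toFun u := res (fun s => ∫ r in (0 : ℝ)..s, ext u r)
    (intervalIntegral.continuous_primitive (fun a b => (ext_continuous u).intervalIntegrable a b) 0)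
  map_add' u v := by
    ext s
    simp only [res_apply, ContinuousMap.add_apply]
    rw [← intervalIntegral.integral_add ((ext_continuous u).intervalIntegrable _ _)
      ((ext_continuous v).intervalIntegrable _ _)]
    rfl
  map_smul' c u := by
    ext s
    simp only [res_apply, ContinuousMap.smul_apply, RingHom.id_apply]
    rw [← intervalIntegral.integral_smul]
    rfl

omit [CompleteSpace E] in
theorem intL_apply (u : C(unitInterval, E)) (s : unitInterval) :
    intL u s = ∫ r in (0 : ℝ)..s, ext u r := rfl

omit [CompleteSpace E] in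
theorem norm_intL_le_integral (u : C(unitInterval, E)) :
    ‖intL u‖ ≤ ∫ r in (0 : ℝ)..1, ‖ext u r‖ := by
  have hn : 0 ≤ ∫ r in (0 : ℝ)..1, ‖ext u r‖ :=
    intervalIntegral.integral_nonneg zero_le_one fun r _ => norm_nonneg _
  rw [ContinuousMap.norm_le _ hn]
  intro s
  rw [intL_apply]
  refine (intervalIntegral.norm_integral_le_integral_norm s.2.1).trans ?_
  exact intervalIntegral.integral_mono_interval le_rfl s.2.1 s.2.2
    (Eventually.of_forall fun r => norm_nonneg _)
    ((ext_continuous u).norm.intervalIntegrable _ _)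

omit [CompleteSpace E] in
theorem norm_intL_le (u : C(unitInterval, E)) : ‖intL u‖ ≤ 1 * ‖u‖ := by
  refine (norm_intL_le_integral u).trans ?_
  have := intervalIntegral.integral_mono_on (μ := MeasureTheory.volume) (a := 0) (b := 1)
    zero_le_one ((ext_continuous u).norm.intervalIntegrable _ _)
    (continuous_const.intervalIntegrable _ _) (fun r _ => norm_ext_le u r)
  simpa using this

/-- The primitive as a bounded operator. -/
noncomputable def int : C(unitInterval, E) →L[ℝ] C(unitInterval, E) :=
  (intL (E := E)).mkContinuous 1 norm_intL_le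

omit [CompleteSpace E] in
theorem int_apply (u : C(unitInterval, E)) (s : unitInterval) :
    int u s = ∫ r in (0 : ℝ)..s, ext u r := rfl

omit [CompleteSpace E] in
theorem norm_int_le (u : C(unitInterval, E)) : ‖int u‖ ≤ ∫ r in (0 : ℝ)..1, ‖ext u r‖ :=
  norm_intL_le_integral u

omit [CompleteSpace E] in
theorem int_zero (u : C(unitInterval, E)) : int u 0 = 0 := by
  rw [int_apply]; simp

/-- Fundamental theorem of calculus in operator form. -/
theorem int_res {W W' : ℝ → E} (h : ∀ s, HasDerivAt W (W' s) s) (hW' : Continuous W')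
    (s : unitInterval) : int (res W' hW') s = W s - W 0 := by
  rw [int_apply, ← intervalIntegral.integral_eq_sub_of_hasDerivAt (fun r _ => h r)
    (hW'.intervalIntegrable _ _)]
  refine intervalIntegral.integral_congr fun r hr => ?_
  rw [uIcc_of_le s.2.1] at hr
  exact ext_res _ _ ⟨hr.1, hr.2.trans s.2.2⟩

omit [CompleteSpace E] in
/-- Pointwise application of an operator valued function. -/
noncomputable def mulL : C(unitInterval, E →L[ℝ] E) →ₗ[ℝ] C(unitInterval, E) →ₗ[ℝ]
    C(unitInterval, E) :=
  LinearMap.mk₂ ℝ (fun B y => ⟨fun s => B s (y s), B.continuous.clm_apply y.continuous⟩)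
    (fun _ _ _ => by ext s; simp) (fun _ _ _ => by ext s; simp)
    (fun _ _ _ => by ext s; simp) (fun _ _ _ => by ext s; simp)

omit [CompleteSpace E] in
theorem norm_mulL_le (B : C(unitInterval, E →L[ℝ] E)) (y : C(unitInterval, E)) :
    ‖mulL B y‖ ≤ 1 * ‖B‖ * ‖y‖ := by
  rw [one_mul, ContinuousMap.norm_le _ (by positivity)]
  intro s
  exact ((B s).le_opNorm (y s)).trans
    (mul_le_mul (B.norm_coe_le_norm s) (y.norm_coe_le_norm s) (norm_nonneg _) (norm_nonneg B))

omit [CompleteSpace E] in
/-- Pointwise application as a bounded bilinear map. -/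
noncomputable def mul : C(unitInterval, E →L[ℝ] E) →L[ℝ] C(unitInterval, E) →L[ℝ]
    C(unitInterval, E) :=
  LinearMap.mkContinuous₂ (𝕜 := ℝ) (𝕜₂ := ℝ) (𝕜₃ := ℝ) (σ₁₃ := RingHom.id ℝ) (σ₂₃ := RingHom.id ℝ)
    (E := C(unitInterval, E →L[ℝ] E)) (F := C(unitInterval, E))
    (G := C(unitInterval, E)) (mulL (E := E)) 1 norm_mulL_le

omit [CompleteSpace E] in
@[simp] theorem mul_apply (B : C(unitInterval, E →L[ℝ] E)) (y : C(unitInterval, E))
    (s : unitInterval) : mul B y s = B s (y s) := rfl

/-- The composition operator. -/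
def nem {F : Type} [TopologicalSpace F] (g : E → F) (hg : Continuous g) (u : C(unitInterval, E)) :
    C(unitInterval, F) := (ContinuousMap.mk g hg).comp u

omit [NormedSpace ℝ E] [CompleteSpace E] in
@[simp] theorem nem_apply {F : Type} [TopologicalSpace F] (g : E → F) (hg : Continuous g)
    (u : C(unitInterval, E)) (s : unitInterval) : nem g hg u s = g (u s) := rfl

omit [NormedSpace ℝ E] [CompleteSpace E] in
theorem nem_continuous {F : Type} [TopologicalSpace F] (g : E → F) (hg : Continuous g) :
    Continuous (nem g hg) := ContinuousMap.continuous_postcomp _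

omit [CompleteSpace E] in
theorem nem_hasFDerivAt {g : E → E} (hg : ContDiff ℝ 1 g) (u : C(unitInterval, E)) :
    HasFDerivAt (nem g hg.continuous)
      (mul (nem (fderiv ℝ g) (hg.continuous_fderiv one_ne_zero) u)) u := by
  rw [hasFDerivAt_iff_isLittleO_nhds_zero, Asymptotics.isLittleO_iff]
  intro c hc
  have hD := (nem_continuous (fderiv ℝ g) (hg.continuous_fderiv one_ne_zero)).continuousAt (x := u)
  obtain ⟨δ, hδ, hball⟩ := Metric.continuousAt_iff.mp hD c hc
  filter_upwards [Metric.ball_mem_nhds (0 : C(unitInterval, E)) hδ] with h hh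
  rw [ContinuousMap.norm_le _ (by positivity)]
  intro s
  have hhs : ‖h s‖ < δ := lt_of_le_of_lt (h.norm_coe_le_norm s) (by simpa using hh)
  have key := (convex_ball (u s) δ).norm_image_sub_le_of_norm_fderiv_le' (𝕜 := ℝ) (f := g)
    (φ := fderiv ℝ g (u s)) (C := c) (x := u s) (y := u s + h s)
    (fun z _ => hg.differentiable one_ne_zero z) (fun z hz => by
      have h1 : dist (u + ContinuousMap.const _ (z - u s)) u < δ := by
        rw [dist_eq_norm, add_sub_cancel_left]
        refine lt_of_le_of_lt ((ContinuousMap.norm_le _ (norm_nonneg (z - u s))).mpr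
          fun _ => le_rfl) ?_
        simpa [dist_eq_norm] using hz
      have h2 := (ContinuousMap.dist_apply_le_dist s).trans (hball h1).le
      simpa [dist_eq_norm] using h2)
    (Metric.mem_ball_self hδ) (by simpa using hhs)
  rw [add_sub_cancel_left] at key
  exact key.trans (mul_le_mul_of_nonneg_left (h.norm_coe_le_norm s) hc.le)

omit [CompleteSpace E] in
theorem nem_hasStrictFDerivAt {g : E → E} (hg : ContDiff ℝ 1 g) (u : C(unitInterval, E)) :
    HasStrictFDerivAt (nem g hg.continuous)
      (mul (nem (fderiv ℝ g) (hg.continuous_fderiv one_ne_zero) u)) u :=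
  hasStrictFDerivAt_of_hasFDerivAt_of_continuousAt
    (f' := fun v => mul (nem (fderiv ℝ g) (hg.continuous_fderiv one_ne_zero) v))
    (Eventually.of_forall fun v => nem_hasFDerivAt hg v)
    (mul.continuous.comp (nem_continuous _ _)).continuousAt

end Pool.Agent.Lib.MP_e1010f_an
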