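import Pool.Agent.Lib.MP_e1010f_an.Ops

set_option autoImplicit false

open Filter Topology Set

namespace Pool.Agent.Lib.MP_e1010f_an

variable {E : Type} [NormedAddCommGroup E] [NormedSpace ℝ E]

/-- The parameter independent part of the linearised operator. -/
noncomputable def lin0 (E : Type) [NormedAddCommGroup E] [NormedSpace ℝ E] :
    C(unitInterval, E) →L[ℝ] C(unitInterval, E) :=
  ContinuousLinearMap.id ℝ C(unitInterval, E) -
    (ContinuousLinearMap.const ℝ unitInterval (M := E)).comp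
      (ContinuousMap.evalCLM ℝ (1 : unitInterval) (M := E))

theorem lin0_apply (y : C(unitInterval, E)) : lin0 E y = y - ContinuousMap.const _ (y 1) := rfl

/-- The phase functional. -/
noncomputable def phase (ℓ : E →L[ℝ] ℝ) : C(unitInterval, E) →L[ℝ] ℝ :=
  ℓ.comp (ContinuousMap.evalCLM ℝ (0 : unitInterval) (M := E))

theorem phase_apply (ℓ : E →L[ℝ] ℝ) (y : C(unitInterval, E)) : phase ℓ y = ℓ (y 0) := rfl

/-- The linearised periodic boundary value operator. -/
noncomputable def linOp (ℓ : E →L[ℝ] ℝ) (B : C(unitInterval, E →L[ℝ] E)) (b : C(unitInterval, E))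
    (T : ℝ) : (C(unitInterval, E) × ℝ) →L[ℝ] (C(unitInterval, E) × ℝ) :=
  ContinuousLinearMap.prod
    ((lin0 E - T • (int (E := E)).comp (mul B)).comp
        (ContinuousLinearMap.fst ℝ C(unitInterval, E) ℝ)
      - (ContinuousLinearMap.snd ℝ C(unitInterval, E) ℝ).smulRight (int b))
    ((phase ℓ).comp (ContinuousLinearMap.fst ℝ C(unitInterval, E) ℝ))

theorem linOp_apply (ℓ : E →L[ℝ] ℝ) (B : C(unitInterval, E →L[ℝ] E)) (b : C(unitInterval, E))
    (T : ℝ) (y : C(unitInterval, E)) (τ : ℝ) :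
    linOp ℓ B b T (y, τ) = (y - ContinuousMap.const _ (y 1) - T • int (mul B y) - τ • int b,
      ℓ (y 0)) := rfl

theorem linOp_continuous (ℓ : E →L[ℝ] ℝ) {X : Type} [TopologicalSpace X]
    {B : X → C(unitInterval, E →L[ℝ] E)} {b : X → C(unitInterval, E)} {T : X → ℝ}
    (hB : Continuous B) (hb : Continuous b) (hT : Continuous T) :
    Continuous fun x => linOp ℓ (B x) (b x) (T x) := by
  have h1 : Continuous fun x => (lin0 E - T x • (int (E := E)).comp (mul (B x))).comp
        (ContinuousLinearMap.fst ℝ C(unitInterval, E) ℝ)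
      - (ContinuousLinearMap.snd ℝ C(unitInterval, E) ℝ).smulRight (int (b x)) := by
    refine Continuous.sub ?_ ?_
    · exact (continuous_const.sub (hT.smul
        (continuous_const.clm_comp (mul.continuous.comp hB)))).clm_comp continuous_const
    · exact (ContinuousLinearMap.smulRightL ℝ _ _
        (ContinuousLinearMap.snd ℝ C(unitInterval, E) ℝ)).continuous.comp (int.continuous.comp hb)
  have h2 : Continuous fun q : ((C(unitInterval, E) × ℝ) →L[ℝ] C(unitInterval, E)) ×
      ((C(unitInterval, E) × ℝ) →L[ℝ] ℝ) => q.1.prod q.2 :=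
    (ContinuousLinearMap.prodₗᵢ ℝ).continuous
  exact h2.comp (h1.prodMk continuous_const)

/-- Nondegeneracy of a rescaled periodic solution. -/
def Nondeg (ℓ : E →L[ℝ] ℝ) (g : E → E) (W : ℝ → E) (T : ℝ) : Prop :=
  ∃ (B : C(unitInterval, E →L[ℝ] E)) (b : C(unitInterval, E)),
    (∀ s : unitInterval, B s = fderiv ℝ g (W s)) ∧ (∀ s : unitInterval, b s = g (W s)) ∧
    (linOp ℓ B b T).IsInvertible

/-- Rescaled periodic solutions. -/
def Sol (g : E → E) (W : ℝ → E) (T : ℝ) : Prop :=
  (∀ s, HasDerivAt W (T • g (W s)) s) ∧ Function.Periodic W 1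

theorem Sol.continuous {g : E → E} {W : ℝ → E} {T : ℝ} (h : Sol g W T) : Continuous W :=
  continuous_iff_continuousAt.mpr fun s => (h.1 s).continuousAt

/-- Periodic extension. -/
noncomputable def per (u : C(unitInterval, E)) (s : ℝ) : E := ext u (Int.fract s)

omit [NormedSpace ℝ E] in
theorem per_eq (u : C(unitInterval, E)) (s : ℝ) :
    per u s = u ⟨Int.fract s, Int.fract_nonneg s, (Int.fract_lt_one s).le⟩ :=
  ext_of_mem _ _

omit [NormedAddCommGroup E] [NormedSpace ℝ E] in
theorem periodic_fract {W : ℝ → E} (h : Function.Periodic W 1) (s : ℝ) :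
    W (Int.fract s) = W s := by
  have := h.sub_int_mul_eq (x := s) ⌊s⌋
  rwa [mul_one] at this

omit [NormedSpace ℝ E] in
theorem per_res {W : ℝ → E} (hW : Continuous W) (h : Function.Periodic W 1) :
    per (res W hW) = W := by
  funext s
  rw [per_eq, res_apply, periodic_fract h]

omit [NormedSpace ℝ E] in
theorem per_periodic (u : C(unitInterval, E)) : Function.Periodic (per u) 1 := fun s => by
  simp [per]

omit [NormedSpace ℝ E] in
theorem per_coe {u : C(unitInterval, E)} (h : u 0 = u 1) {s : ℝ} (hs : s ∈ Icc (0 : ℝ) 1) :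
    per u s = ext u s := by
  rcases eq_or_lt_of_le hs.2 with rfl | hlt
  · rw [per, Int.fract_one, ext_of_mem _ ⟨le_rfl, zero_le_one⟩, ext_of_mem _ hs]
    exact h
  · rw [per, Int.fract_eq_self.mpr ⟨hs.1, hlt⟩]

variable [CompleteSpace E]

theorem per_sol {g : E → E} (hg : Continuous g) {u : C(unitInterval, E)} {T : ℝ}
    (h : u - ContinuousMap.const _ (u 1) - T • int (nem g hg u) = 0) :
    Sol g (per u) T ∧ ∀ s : unitInterval, per u s = u s := by
  have heq : ∀ s : unitInterval, u s = u 1 + T • int (nem g hg u) s := by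
    intro s
    have := DFunLike.congr_fun h s
    simp only [ContinuousMap.sub_apply, ContinuousMap.const_apply, ContinuousMap.smul_apply,
      ContinuousMap.zero_apply] at this
    rw [sub_sub, sub_eq_zero] at this
    exact this
  have h01 : u 0 = u 1 := by simpa [int_zero] using heq 0
  have hc : Continuous (per u) :=
    ContinuousOn.comp_fract'' (f := ext u) (ext_continuous u).continuousOn (by
      rw [ext_of_mem _ ⟨le_rfl, zero_le_one⟩, ext_of_mem _ ⟨zero_le_one, le_rfl⟩]; exact h01)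
  have hgc : Continuous fun r => g (per u r) := hg.comp hc
  have hint : ∀ s : unitInterval, int (nem g hg u) s = ∫ r in (0 : ℝ)..s, g (per u r) := by
    intro s
    rw [int_apply]
    refine intervalIntegral.integral_congr fun r hr => ?_
    rw [uIcc_of_le s.2.1] at hr
    simp only [per_coe h01 ⟨hr.1, hr.2.trans s.2.2⟩]
    rfl
  let Z : ℝ → E := fun s => u 1 + T • ∫ r in (0 : ℝ)..s, g (per u r)
  have hone : T • ∫ r in (0 : ℝ)..1, g (per u r) = 0 := by
    have := heq 1
    rw [hint] at this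
    simpa using this
  have hp : Function.Periodic (fun r => g (per u r)) 1 := (per_periodic u).comp g
  have hZp : Function.Periodic Z 1 := by
    intro s
    simp only [Z]
    rw [← intervalIntegral.integral_add_adjacent_intervals (b := s) (hgc.intervalIntegrable _ _)
      (hgc.intervalIntegrable _ _), hp.intervalIntegral_add_eq s 0, zero_add, smul_add, hone,
      add_zero]
  have hZ : Z = per u := by
    funext s
    rw [← periodic_fract hZp, per_eq, heq, hint]
  refine ⟨⟨fun s => ?_, per_periodic u⟩, fun s => by rw [per_coe h01 s.2, ext_coe]⟩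
  have := ((hgc.integral_hasStrictDerivAt 0 s).hasDerivAt.const_smul T).const_add (u 1)
  have h2 : HasDerivAt Z (T • g (per u s)) s := this
  rwa [hZ] at h2

theorem Sol.eq_zero {g : E → E} (hg : Continuous g) {W : ℝ → E} {T : ℝ} (h : Sol g W T) :
    res W h.continuous - ContinuousMap.const _ (res W h.continuous 1)
      - T • int (nem g hg (res W h.continuous)) = 0 := by
  ext s
  have hc : Continuous fun s => T • g (W s) := (hg.comp h.continuous).const_smul T
  have h1 := int_res h.1 hc s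
  have h2 : res (fun s => T • g (W s)) hc = T • nem g hg (res W h.continuous) := rfl
  rw [h2, map_smul] at h1
  have h3 : W 1 = W 0 := by simpa using h.2 0
  simp only [ContinuousMap.sub_apply, ContinuousMap.const_apply, res_apply,
    ContinuousMap.zero_apply, h1]
  simp [h3]

theorem perturb {ℓ : E →L[ℝ] ℝ} {g : E → E} (hg : ContDiff ℝ 1 g) {W : ℝ → E} {T : ℝ}
    (hW : Sol g W T) (hN : Nondeg ℓ g W T) :
    ∃ K : ℝ, ∀ p : E → E, ContDiff ℝ 1 p →
      ∃ (Wε : ℝ → ℝ → E) (Tε : ℝ → ℝ) (y : ℝ → E),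
        (∀ᶠ ε in 𝓝 (0 : ℝ), Sol (fun z => g z + ε • p z) (Wε ε) (Tε ε) ∧
          Nondeg ℓ (fun z => g z + ε • p z) (Wε ε) (Tε ε)) ∧
        (∀ δ > 0, ∀ᶠ ε in 𝓝 (0 : ℝ), |Tε ε - T| < δ ∧ ∀ s, ‖Wε ε s - W s‖ ≤ δ) ∧
        Wε 0 = W ∧ (∀ s, HasDerivAt (fun ε => Wε ε s) (y s) 0) ∧
        ∀ s, ‖y s‖ ≤ K * ∫ r in (0 : ℝ)..1, ‖p (W r)‖ := by
  obtain ⟨B, b, hB, hb, hinv⟩ := hN
  set u := res W hW.continuous with hu
  have hB' : B = nem (fderiv ℝ g) (hg.continuous_fderiv one_ne_zero) u := ContinuousMap.ext hB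
  have hb' : b = nem g hg.continuous u := ContinuousMap.ext hb
  refine ⟨‖(linOp ℓ B b T).inverse‖ * |T|, fun p hp => ?_⟩
  let F : ℝ × (C(unitInterval, E) × ℝ) → C(unitInterval, E) × ℝ := fun v =>
    (lin0 E v.2.1 - v.2.2 • int (nem g hg.continuous v.2.1 + v.1 • nem p hp.continuous v.2.1),
      phase ℓ v.2.1)
  let π1 : ℝ × (C(unitInterval, E) × ℝ) →L[ℝ] C(unitInterval, E) :=
    (ContinuousLinearMap.fst ℝ C(unitInterval, E) ℝ).comp (ContinuousLinearMap.snd ℝ ℝ _)
  let π2 : ℝ × (C(unitInterval, E) × ℝ) →L[ℝ] ℝ :=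
    (ContinuousLinearMap.snd ℝ C(unitInterval, E) ℝ).comp (ContinuousLinearMap.snd ℝ ℝ _)
  let π3 : ℝ × (C(unitInterval, E) × ℝ) →L[ℝ] ℝ := ContinuousLinearMap.fst ℝ ℝ _
  have d1 : HasStrictFDerivAt (fun v : ℝ × (C(unitInterval, E) × ℝ) => v.2.1) π1
      ((0 : ℝ), (u, T)) := π1.hasStrictFDerivAt
  have d2 : HasStrictFDerivAt (fun v : ℝ × (C(unitInterval, E) × ℝ) => v.2.2) π2
      ((0 : ℝ), (u, T)) := π2.hasStrictFDerivAt
  have d3 : HasStrictFDerivAt (fun v : ℝ × (C(unitInterval, E) × ℝ) => v.1) π3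
      ((0 : ℝ), (u, T)) := π3.hasStrictFDerivAt
  have dg := (nem_hasStrictFDerivAt hg u).comp ((0 : ℝ), (u, T)) d1
  have dp := (nem_hasStrictFDerivAt hp u).comp ((0 : ℝ), (u, T)) d1
  have dF0 := (((lin0 E).hasStrictFDerivAt.comp _ d1).sub
      (d2.smul (int.hasStrictFDerivAt.comp _ (dg.add (d3.smul dp))))).prodMk
      ((phase ℓ).hasStrictFDerivAt.comp _ d1)
  obtain ⟨F', hF', dF⟩ : ∃ F', _ = F' ∧ HasStrictFDerivAt F F' ((0 : ℝ), (u, T)) := ⟨_, rfl, dF0⟩
  have hr : F' ∘L ContinuousLinearMap.inr ℝ ℝ _ = linOp ℓ B b T := by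
    refine ContinuousLinearMap.ext fun v => ?_
    obtain ⟨y, τ⟩ := v
    rw [linOp_apply, ← hF', hB', hb']
    simp [sub_sub, π1, π2, π3, lin0_apply, phase_apply, add_assoc]
  have hl : F' ((1 : ℝ), 0) = (-(T • int (nem p hp.continuous u)), 0) := by
    rw [← hF']
    simp [π1, π2, π3]
  have hinv' : (F' ∘L ContinuousLinearMap.inr ℝ ℝ _).IsInvertible := hr ▸ hinv
  set ψ := dF.implicitFunctionOfProdDomain hinv' with hψ
  have hψt : Tendsto ψ (𝓝 0) (𝓝 (u, T)) := dF.tendsto_implicitFunctionOfProdDomain hinv'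
  have hψe : ∀ᶠ ε in 𝓝 (0 : ℝ), F (ε, ψ ε) = F (0, (u, T)) :=
    dF.eventually_apply_implicitFunctionOfProdDomain hinv'
  have hψd := (dF.hasStrictFDerivAt_implicitFunctionOfProdDomain hinv').hasFDerivAt.hasDerivAt
  have hψ0 : ψ 0 = (u, T) :=
    (dF.eventually_apply_eq_iff_implicitFunctionOfProdDomain hinv').self_of_nhds.mp rfl
  have hF0 : (F (0, (u, T))).1 = 0 := by
    simp only [F, zero_smul, add_zero, lin0_apply]
    exact hW.eq_zero hg.continuous
  set Y := (-(F' ∘L ContinuousLinearMap.inr ℝ ℝ _).inverse ∘L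
    (F' ∘L ContinuousLinearMap.inl ℝ ℝ _)) 1 with hY
  have hψd' : HasDerivAt ψ Y 0 := hψd
  have hψ1 : Tendsto (fun ε => (ψ ε).1) (𝓝 0) (𝓝 u) := (continuous_fst.tendsto _).comp hψt
  have hψ2 : Tendsto (fun ε => (ψ ε).2) (𝓝 0) (𝓝 T) := (continuous_snd.tendsto _).comp hψt
  have hWu : per u = W := per_res hW.continuous hW.2
  refine ⟨fun ε => per (ψ ε).1, fun ε => (ψ ε).2, per Y.1, ?_, ?_, ?_, ?_, ?_⟩
  · have hcont : Continuous fun v : ℝ × (C(unitInterval, E) × ℝ) =>
        linOp ℓ (nem (fderiv ℝ g) (hg.continuous_fderiv one_ne_zero) v.2.1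
          + v.1 • nem (fderiv ℝ p) (hp.continuous_fderiv one_ne_zero) v.2.1)
          (nem g hg.continuous v.2.1 + v.1 • nem p hp.continuous v.2.1) v.2.2 := by
      refine linOp_continuous ℓ ?_ ?_ π2.continuous
      · exact ((nem_continuous _ _).comp π1.continuous).add
          (π3.continuous.smul ((nem_continuous _ _).comp π1.continuous))
      · exact ((nem_continuous _ _).comp π1.continuous).add
          (π3.continuous.smul ((nem_continuous _ _).comp π1.continuous))
    have ht := (hcont.tendsto (0, (u, T))).comp (tendsto_id.prodMk_nhds hψt)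
    simp only [zero_smul, add_zero, ← hB', ← hb'] at ht
    obtain ⟨e, he⟩ := hinv
    have hopen := ht.eventually (he ▸ ContinuousLinearEquiv.nhds e)
    filter_upwards [hψe, hopen] with ε h1 h2
    have hc : Continuous fun z => g z + ε • p z := hg.continuous.add (hp.continuous.const_smul ε)
    have h3 : (ψ ε).1 - ContinuousMap.const _ ((ψ ε).1 1) - (ψ ε).2 • int (nem _ hc (ψ ε).1) = 0 :=
      (congrArg Prod.fst h1).trans hF0
    obtain ⟨h4, h5⟩ := per_sol hc h3
    refine ⟨h4, _, _, fun s => ?_, fun s => ?_, h2⟩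
    · have h6 : HasFDerivAt (fun z => g z + ε • p z) _ ((ψ ε).1 s) :=
        (hg.differentiable one_ne_zero _).hasFDerivAt.add
          ((hp.differentiable one_ne_zero _).hasFDerivAt.const_smul ε)
      rw [h5, h6.fderiv]
      rfl
    · rw [h5]
      rfl
  · intro δ hδ
    filter_upwards [hψ1.eventually (Metric.ball_mem_nhds u hδ),
      hψ2.eventually (Metric.ball_mem_nhds T hδ)] with ε h1 h2
    refine ⟨by simpa [Real.dist_eq] using h2, fun s => ?_⟩
    rw [← hWu, per_eq, per_eq, ← dist_eq_norm]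
    exact (ContinuousMap.dist_apply_le_dist _).trans (le_of_lt h1)
  · simp only [hψ0, hWu]
  · intro s
    simp only [per_eq]
    exact ((ContinuousMap.evalCLM ℝ (⟨Int.fract s, Int.fract_nonneg s,
      (Int.fract_lt_one s).le⟩ : unitInterval) (M := E)).comp
      (ContinuousLinearMap.fst ℝ C(unitInterval, E) ℝ)).hasFDerivAt.comp_hasDerivAt 0 hψd'
  · intro s
    have h1 : ‖per Y.1 s‖ ≤ ‖Y‖ := (norm_ext_le _ _).trans (norm_fst_le Y)
    have h2 : ‖Y‖ ≤ ‖(linOp ℓ B b T).inverse‖ * ‖F' ((1 : ℝ), 0)‖ := by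
      rw [hY, hr]
      simpa using (linOp ℓ B b T).inverse.le_opNorm (F' ((1 : ℝ), 0))
    have h3 : ‖F' ((1 : ℝ), 0)‖ ≤ |T| * ∫ r in (0 : ℝ)..1, ‖p (W r)‖ := by
      rw [hl, Prod.norm_mk, norm_zero, max_eq_left (norm_nonneg _), norm_neg, norm_smul,
        Real.norm_eq_abs]
      refine mul_le_mul_of_nonneg_left ((norm_int_le _).trans (le_of_eq ?_)) (abs_nonneg T)
      refine intervalIntegral.integral_congr fun r hr => ?_
      rw [uIcc_of_le zero_le_one] at hr
      simp only [ext_of_mem _ hr]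
      rfl
    rw [mul_assoc]
    exact h1.trans (h2.trans (mul_le_mul_of_nonneg_left h3 (ContinuousLinearMap.opNorm_nonneg _)))

end Pool.Agent.Lib.MP_e1010f_an
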